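import Pool.Agent.H82R2.Dim.Bridge

set_option linter.all false

/-! Literal normalisation: an automaton group over five letters whose closure is the iterated
wreath product of the alternating group `A_5`. -/

namespace Pool.Agent.H82R2.Dim

/-- The Hausdorff dimension of the closure of the group generated by the automaton `M`
(literal normalisation by `|Aut T / st(n)| = (m!)^(1+m+...+m^(n-1))`). -/
noncomputable def Mealy.dim {Q A : Type} [Fintype A] (M : Mealy Q A) : ℝ :=
  Filter.liminf (fun n : ℕ => Real.log (M.levelCard n) /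
    Real.log ((Nat.factorial (Fintype.card A) : ℝ) ^ (∑ i ∈ Finset.range n, (Fintype.card A) ^ i)))
    Filter.atTop

namespace AF

open Equiv
open scoped commutatorElement

/-- `A_5` -/
abbrev P5 : Type := alternatingGroup (Fin 5)

theorem P5_perfect (H : Subgroup P5) (h : ∀ g k : P5, ⁅g, k⁆ ∈ H) : H = ⊤ := by
  rw [eq_top_iff, ← commutator_alternatingGroup_eq_top (α := Fin 5) (by simp), commutator_def,
    Subgroup.commutator_le]
  intro g _ k _
  exact h g k

/-- even double transpositions -/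
def tt (a b c d : Fin 5) (h1 : a ≠ b) (h2 : c ≠ d) : P5 :=
  ⟨swap a b * swap c d, by
    rw [Perm.mem_alternatingGroup, Perm.sign_mul, Perm.sign_swap h1, Perm.sign_swap h2]
    rfl⟩

theorem smul_def (p : P5) (z : Fin 5) : p • z = p.1 z := rfl

theorem trans0 (z : Fin 5) : ∃ p : P5, p • (0 : Fin 5) = z := by
  fin_cases z
  · exact ⟨1, rfl⟩
  · exact ⟨tt 0 1 2 3 (by decide) (by decide), rfl⟩
  · exact ⟨tt 0 2 1 3 (by decide) (by decide), rfl⟩
  · exact ⟨tt 0 3 1 2 (by decide) (by decide), rfl⟩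
  · exact ⟨tt 0 4 1 2 (by decide) (by decide), rfl⟩

theorem trans (z w : Fin 5) : ∃ p : P5, p • z = w := by
  obtain ⟨p, hp⟩ := trans0 z
  obtain ⟨q, hq⟩ := trans0 w
  refine ⟨q * p⁻¹, ?_⟩
  rw [mul_smul, ← hp, inv_smul_smul, hq]

section step
variable {K : Type} [Group K] (σ ρ : P5 →* K)

/-- the sections of the second kind of generators -/
def dc (g : P5) : Fin 5 → K := fun z => if z = 0 then ρ g else if z = 1 then σ g else 1

/-- the second kind of generators -/
def dd (g : P5) : Node P5 (Fin 5) K := coord (dc σ ρ g)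

theorem key (h : Subgroup.closure (Set.range σ ∪ Set.range ρ) = ⊤)
    (H : Subgroup (Node P5 (Fin 5) K)) (hr : ∀ g : P5, rt g ∈ H) (hd : ∀ g, dd σ ρ g ∈ H) :
    H = ⊤ := by
  have hconj : ∀ (g p : P5), (coord (fun z => dc σ ρ g (p • z)) : Node P5 (Fin 5) K) ∈ H := by
    intro g p
    have h1 := H.mul_mem (H.mul_mem (H.inv_mem (hr p)) (hd g)) (hr p)
    rw [conj_rt p (dd σ ρ g) rfl] at h1
    exact h1
  -- the commutators
  have hσ : ∀ g k : P5, (io 1 (σ ⁅g, k⁆) : Node P5 (Fin 5) K) ∈ H := by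
    intro g k
    set p : P5 := tt 0 2 3 4 (by decide) (by decide) with hp
    have h1 : ⁅(coord (fun z => dc σ ρ g (p • z)) : Node P5 (Fin 5) K), dd σ ρ k⁆ ∈ H := by
      rw [commutatorElement_def]
      exact H.mul_mem (H.mul_mem (H.mul_mem (hconj g p) (hd k)) (H.inv_mem (hconj g p)))
        (H.inv_mem (hd k))
    rw [commutator_eq_io _ _ rfl rfl 1] at h1
    · have h2 : (coord (fun z => dc σ ρ g (p • z)) : Node P5 (Fin 5) K).c 1 = σ g := by
        have : p • (1 : Fin 5) = 1 := rfl
        simp [this, dc]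
      have h3 : (dd σ ρ k).c 1 = σ k := by simp [dd, dc]
      rw [h2, h3] at h1
      rw [map_commutatorElement]
      exact h1
    · intro w hw
      by_cases hw0 : w = 0
      · subst hw0
        have h2 : (coord (fun z => dc σ ρ g (p • z)) : Node P5 (Fin 5) K).c 0 = 1 := by
          have : p • (0 : Fin 5) = 2 := rfl
          simp [this, dc]
        rw [h2]
        exact Commute.one_left _
      · have h3 : (dd σ ρ k).c w = 1 := by simp [dd, dc, hw, hw0]
        rw [h3]
        exact Commute.one_right _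
  have hρ : ∀ g k : P5, (io 0 (ρ ⁅g, k⁆) : Node P5 (Fin 5) K) ∈ H := by
    intro g k
    set p : P5 := tt 1 2 3 4 (by decide) (by decide) with hp
    have h1 : ⁅(coord (fun z => dc σ ρ g (p • z)) : Node P5 (Fin 5) K), dd σ ρ k⁆ ∈ H := by
      rw [commutatorElement_def]
      exact H.mul_mem (H.mul_mem (H.mul_mem (hconj g p) (hd k)) (H.inv_mem (hconj g p)))
        (H.inv_mem (hd k))
    rw [commutator_eq_io _ _ rfl rfl 0] at h1
    · have h2 : (coord (fun z => dc σ ρ g (p • z)) : Node P5 (Fin 5) K).c 0 = ρ g := by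
        have : p • (0 : Fin 5) = 0 := rfl
        simp [this, dc]
      have h3 : (dd σ ρ k).c 0 = ρ k := by simp [dd, dc]
      rw [h2, h3] at h1
      rw [map_commutatorElement]
      exact h1
    · intro w hw
      by_cases hw1 : w = 1
      · subst hw1
        have h2 : (coord (fun z => dc σ ρ g (p • z)) : Node P5 (Fin 5) K).c 1 = 1 := by
          have : p • (1 : Fin 5) = 2 := rfl
          simp [this, dc]
        rw [h2]
        exact Commute.one_left _
      · have h3 : (dd σ ρ k).c w = 1 := by simp [dd, dc, hw, hw1]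
        rw [h3]
        exact Commute.one_right _
  have hσ' : ∀ g : P5, (io 1 (σ g) : Node P5 (Fin 5) K) ∈ H := by
    intro g
    have h1 := P5_perfect (H.comap ((io 1).comp σ)) (fun g k => hσ g k)
    have : g ∈ H.comap ((io 1).comp σ) := by rw [h1]; trivial
    exact this
  have hρ' : ∀ g : P5, (io 0 (ρ g) : Node P5 (Fin 5) K) ∈ H := by
    intro g
    have h1 := P5_perfect (H.comap ((io 0).comp ρ)) (fun g k => hρ g k)
    have : g ∈ H.comap ((io 0).comp ρ) := by rw [h1]; trivial
    exact this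
  have hmove : ∀ (z w : Fin 5) (x : K), (io z x : Node P5 (Fin 5) K) ∈ H →
      (io w x : Node P5 (Fin 5) K) ∈ H := by
    intro z w x hx
    obtain ⟨p, hp⟩ := trans z w
    have h1 := H.mul_mem (H.mul_mem (hr p) hx) (H.inv_mem (hr p))
    rw [rt_conj_io, hp] at h1
    exact h1
  have hio : ∀ (z : Fin 5) (x : K), (io z x : Node P5 (Fin 5) K) ∈ H := by
    intro z x
    have h1 : H.comap (io z) = ⊤ := by
      rw [eq_top_iff, ← h, Subgroup.closure_le]
      rintro y (⟨g, rfl⟩ | ⟨g, rfl⟩)
      · exact hmove 1 z _ (hσ' g)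
      · exact hmove 0 z _ (hρ' g)
    have : x ∈ H.comap (io z) := by rw [h1]; trivial
    exact this
  rw [eq_top_iff]
  intro u _
  rw [eq_coord_mul_rt u]
  refine H.mul_mem (hr _) ?_
  have h2 : u.c ∈ H.comap (coord : (Fin 5 → K) →* Node P5 (Fin 5) K) :=
    Subgroup.pi_mem_of_mulSingle_mem _ (fun z => hio z (u.c z))
  exact h2

end step

/-- labels -/
def lab : P5 ⊕ P5 → P5 := Sum.elim id (fun _ => 1)

/-- transitions -/
def nxt : P5 ⊕ P5 → Fin 5 → P5 ⊕ P5 :=
  Sum.elim (fun _ _ => Sum.inl 1)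
    (fun g z => if z = 0 then Sum.inr g else if z = 1 then Sum.inl g else Sum.inl 1)

theorem el_one (n : ℕ) : elW lab nxt n (Sum.inl 1) = 1 := by
  induction n with
  | zero => exact Subsingleton.elim _ _
  | succ n ih =>
    apply Node.ext
    · funext z; exact ih
    · rfl

theorem el_inl (n : ℕ) (g : P5) :
    (elW lab nxt (n + 1) (Sum.inl g) : Node P5 (Fin 5) (W P5 (Fin 5) n)) = rt g := by
  apply Node.ext
  · funext z; exact el_one n
  · rfl

/-- the first family -/
def sg (n : ℕ) : P5 →* W P5 (Fin 5) n where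
  toFun g := elW lab nxt n (Sum.inl g)
  map_one' := el_one n
  map_mul' g h := by
    cases n with
    | zero => exact Subsingleton.elim _ _
    | succ n =>
      have h1 := el_inl n (g * h)
      have h2 := el_inl n g
      have h3 := el_inl n h
      have h4 : (elW lab nxt (n + 1) (Sum.inl (g * h)) : Node P5 (Fin 5) (W P5 (Fin 5) n))
          = (elW lab nxt (n + 1) (Sum.inl g) : Node P5 (Fin 5) (W P5 (Fin 5) n))
            * (elW lab nxt (n + 1) (Sum.inl h) : Node P5 (Fin 5) (W P5 (Fin 5) n)) := by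
        rw [h1, h2, h3, map_mul]
        exact rfl
      exact h4

theorem nxt_inr (g : P5) (z : Fin 5) : nxt (Sum.inr g) z
    = if z = 0 then Sum.inr g else if z = 1 then Sum.inl g else Sum.inl 1 := rfl

theorem el_inr_mul (n : ℕ) (g h : P5) : elW lab nxt n (Sum.inr (g * h))
    = elW lab nxt n (Sum.inr g) * elW lab nxt n (Sum.inr h) := by
  induction n with
  | zero => exact Subsingleton.elim _ _
  | succ n ih =>
    apply Node.ext
    · funext z
      show elW lab nxt n (nxt (Sum.inr (g * h)) z)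
        = elW lab nxt n (nxt (Sum.inr g) ((1 : P5) • z)) * elW lab nxt n (nxt (Sum.inr h) z)
      rw [one_smul, nxt_inr, nxt_inr, nxt_inr]
      split_ifs with h0 h1
      · exact ih
      · exact map_mul (sg n) g h
      · rw [el_one, mul_one]
    · show (1 : P5) = 1 * 1
      rw [mul_one]

/-- the second family -/
def rh (n : ℕ) : P5 →* W P5 (Fin 5) n :=
  MonoidHom.mk' (fun g => elW lab nxt n (Sum.inr g)) (el_inr_mul n)

theorem el_inr (n : ℕ) (g : P5) :
    (elW lab nxt (n + 1) (Sum.inr g) : Node P5 (Fin 5) (W P5 (Fin 5) n))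
      = dd (sg n) (rh n) g := by
  apply Node.ext
  · funext z
    show elW lab nxt n (nxt (Sum.inr g) z) = dc (sg n) (rh n) g z
    simp only [nxt, Sum.elim_inr, dc]
    split_ifs with h0 h1
    · rfl
    · rfl
    · exact el_one n
  · rfl

theorem closure_top (n : ℕ) : Subgroup.closure (Set.range (elW lab nxt n)) = ⊤ := by
  induction n with
  | zero =>
    rw [eq_top_iff]
    intro x _
    have : x = 1 := Subsingleton.elim _ _
    rw [this]
    exact Subgroup.one_mem _
  | succ n ih =>
    have h1 : Subgroup.closure (Set.range (sg n) ∪ Set.range (rh n)) = ⊤ := by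
      rw [eq_top_iff, ← ih]
      apply Subgroup.closure_mono
      rintro x ⟨g | g, rfl⟩
      · exact Or.inl ⟨g, rfl⟩
      · exact Or.inr ⟨g, rfl⟩
    refine key (sg n) (rh n) h1 (Subgroup.closure (Set.range (elW lab nxt (n + 1)))) ?_ ?_
    · intro g
      rw [← el_inl]
      exact Subgroup.subset_closure ⟨Sum.inl g, rfl⟩
    · intro g
      rw [← el_inr]
      exact Subgroup.subset_closure ⟨Sum.inr g, rfl⟩

theorem card_W (n : ℕ) :
    Nat.card (W P5 (Fin 5) n) = 60 ^ (∑ i ∈ Finset.range n, 5 ^ i) := by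
  have hP : Nat.card P5 = 60 := by
    have h1 : 2 * Nat.card P5 = Nat.card (Perm (Fin 5)) :=
      two_mul_nat_card_alternatingGroup (α := Fin 5)
    rw [Nat.card_eq_fintype_card (α := Perm (Fin 5)), Fintype.card_perm, Fintype.card_fin] at h1
    have h2 : Nat.factorial 5 = 120 := rfl
    rw [h2] at h1
    omega
  induction n with
  | zero =>
    rw [Finset.sum_range_zero, pow_zero]
    exact Nat.card_unique
  | succ n ih =>
    rw [card_W_succ, ih, hP, Nat.card_eq_fintype_card (α := Fin 5), Fintype.card_fin, ← pow_mul,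
      ← pow_succ]
    congr 1
    rw [Finset.sum_range_succ', Finset.sum_mul]
    simp [pow_succ]

/-- the automaton -/
def M5 : Mealy (P5 ⊕ P5) (Fin 5) := ⟨fun q => MulAction.toPerm (lab q), nxt⟩

theorem levelCard_M5 (n : ℕ) : M5.levelCard n = 60 ^ (∑ i ∈ Finset.range n, 5 ^ i) := by
  have h := levelCard_eq (P := P5) (Z := Fin 5) lab nxt n
  rw [closure_top] at h
  rw [← card_W, ← Subgroup.card_top (G := W P5 (Fin 5) n)]
  exact h

theorem dim_M5 : M5.dim = Real.log 60 / Real.log 120 := by
  unfold Mealy.dim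
  have h : (fun n : ℕ => Real.log (M5.levelCard n) / Real.log
      ((Nat.factorial (Fintype.card (Fin 5)) : ℝ)
        ^ (∑ i ∈ Finset.range n, (Fintype.card (Fin 5)) ^ i)))
      =ᶠ[Filter.atTop] fun _ => Real.log 60 / Real.log 120 := by
    filter_upwards [Filter.eventually_ge_atTop 1] with n hn
    have h2 : (Nat.factorial (Fintype.card (Fin 5)) : ℝ) = 120 := by
      rw [Fintype.card_fin]
      norm_num [Nat.factorial]
    rw [h2, Fintype.card_fin, levelCard_M5]
    push_cast
    rw [Real.log_pow, Real.log_pow]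
    have h3 : ((∑ i ∈ Finset.range n, 5 ^ i : ℕ) : ℝ) ≠ 0 := by
      have : 0 < ∑ i ∈ Finset.range n, 5 ^ i :=
        Finset.sum_pos (fun i _ => by positivity) ⟨0, Finset.mem_range.2 hn⟩
      exact_mod_cast this.ne'
    rw [mul_div_mul_left _ _ h3]
  rw [Filter.liminf_congr h, Filter.liminf_const]

theorem irr60 : Irrational (Real.log 60 / Real.log 120) := by
  rintro ⟨r, hr⟩
  have h60 : 0 < Real.log 60 := Real.log_pos (by norm_num)
  have h120 : 0 < Real.log 120 := Real.log_pos (by norm_num)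
  have hlt : Real.log 60 < Real.log 120 := Real.log_lt_log (by norm_num) (by norm_num)
  have hr0 : (0 : ℝ) < r := by rw [hr]; positivity
  have hr0' : 0 < r := by exact_mod_cast hr0
  have hr1 : (r : ℝ) < 1 := by rw [hr, div_lt_one h120]; exact hlt
  obtain ⟨a, ha⟩ : ∃ a : ℕ, r.num = a := ⟨r.num.toNat, by
    rw [Int.toNat_of_nonneg (Rat.num_nonneg.2 hr0'.le)]⟩
  have hb : 0 < r.den := r.den_pos
  have hrr : (r : ℝ) = a / r.den := by
    rw [Rat.cast_def, ha, Int.cast_natCast]
  have hbR : (0 : ℝ) < r.den := by exact_mod_cast hb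
  have hab : a < r.den := by
    rw [hrr, div_lt_one hbR] at hr1
    exact_mod_cast hr1
  have h1 : (r.den : ℝ) * Real.log 60 = a * Real.log 120 := by
    rw [hrr, div_eq_div_iff hbR.ne' h120.ne'] at hr
    linarith
  rw [← Real.log_pow, ← Real.log_pow] at h1
  have h2 : (60 : ℝ) ^ r.den = 120 ^ a :=
    Real.log_injOn_pos (Set.mem_Ioi.2 (by positivity)) (Set.mem_Ioi.2 (by positivity)) h1
  have h3 : 60 ^ r.den = 120 ^ a := by exact_mod_cast h2
  have h4 : (120 : ℕ) ^ a = 60 ^ a * 2 ^ a := by rw [← mul_pow]; norm_num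
  have h5 : 60 ^ r.den = 60 ^ a * 60 ^ (r.den - a) := by
    rw [← pow_add]; congr 1; omega
  rw [h4, h5] at h3
  have h6 : 60 ^ (r.den - a) = 2 ^ a := Nat.eq_of_mul_eq_mul_left (by positivity) h3
  have h7 : 3 ∣ 60 ^ (r.den - a) := dvd_pow (by norm_num) (by omega)
  rw [h6] at h7
  have h8 : 3 ∣ 2 := Nat.Prime.dvd_of_dvd_pow (by norm_num) h7
  omega

end AF

open AF in
/-- TASK A5 -/
theorem exists_literal :
    ∃ (Q : Type) (_ : Fintype Q) (M : Mealy Q (Fin 5)), Irrational M.dim := by
  refine ⟨P5 ⊕ P5, inferInstance, M5, ?_⟩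
  rw [dim_M5]
  exact irr60

end Pool.Agent.H82R2.Dim
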