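import Mathlib

/-! Iterated permutational wreath products (finite level quotients of groups acting on rooted
trees).  `Node P Z α` is one level: a label `p : P` at the root and sections `c z`. -/

set_option linter.all false

namespace Pool.Agent.H82R2.Dim

@[ext] structure Node (P Z α : Type) where
  c : Z → α
  p : P

section node

variable {P Z α β : Type} [Group P] [MulAction P Z] [Group α] [Group β]

instance : Mul (Node P Z α) := ⟨fun g h => ⟨fun z => g.c (h.p • z) * h.c z, g.p * h.p⟩⟩
instance : One (Node P Z α) := ⟨⟨fun _ => 1, 1⟩⟩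
instance : Inv (Node P Z α) := ⟨fun g => ⟨fun z => (g.c (g.p⁻¹ • z))⁻¹, g.p⁻¹⟩⟩

@[simp] lemma mul_c (g h : Node P Z α) (z : Z) : (g * h).c z = g.c (h.p • z) * h.c z := rfl
@[simp] lemma mul_p (g h : Node P Z α) : (g * h).p = g.p * h.p := rfl
@[simp] lemma one_c (z : Z) : (1 : Node P Z α).c z = 1 := rfl
@[simp] lemma one_p : (1 : Node P Z α).p = 1 := rfl
@[simp] lemma inv_c (g : Node P Z α) (z : Z) : (g⁻¹).c z = (g.c (g.p⁻¹ • z))⁻¹ := rfl
@[simp] lemma inv_p (g : Node P Z α) : (g⁻¹).p = g.p⁻¹ := rfl

instance : Group (Node P Z α) where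
  mul_assoc g h k := by
    ext z
    · simp [mul_assoc, mul_smul]
    · simp [mul_assoc]
  one_mul g := by
    ext z
    · simp
    · simp
  mul_one g := by
    ext z
    · simp
    · simp
  inv_mul_cancel g := by
    ext z
    · simp
    · simp

/-- elements with trivial root label, given by their sections -/
def coord : (Z → α) →* Node P Z α where
  toFun c := ⟨c, 1⟩
  map_one' := rfl
  map_mul' c d := by
    ext z
    · simp
    · simp

@[simp] lemma coord_c (c : Z → α) (z : Z) : (coord (P := P) c).c z = c z := rfl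
@[simp] lemma coord_p (c : Z → α) : (coord (P := P) c).p = 1 := rfl

lemma coord_injective : Function.Injective (coord : (Z → α) →* Node P Z α) := by
  intro c d h
  funext z
  exact congrArg (fun g : Node P Z α => g.c z) h

/-- rooted elements -/
def rt : P →* Node P Z α where
  toFun p := ⟨fun _ => 1, p⟩
  map_one' := rfl
  map_mul' p q := by
    ext z
    · simp
    · simp

@[simp] lemma rt_c (p : P) (z : Z) : (rt (α := α) p).c z = 1 := rfl
@[simp] lemma rt_p (p : P) : (rt (Z := Z) (α := α) p).p = p := rfl

lemma eq_coord_of_p (g : Node P Z α) (h : g.p = 1) : g = coord g.c := by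
  ext z
  · rfl
  · exact h

lemma eq_coord_mul_rt (g : Node P Z α) : g = rt g.p * coord g.c := by
  ext z
  · simp
  · simp

variable [DecidableEq Z]

/-- the element acting as `g` below `z` and trivially elsewhere -/
def io (z : Z) : α →* Node P Z α :=
  (coord (P := P)).comp (MonoidHom.mulSingle (fun _ : Z => α) z)

lemma io_c (z w : Z) (g : α) : (io (P := P) z g).c w = Pi.mulSingle (M := fun _ => α) z g w := rfl
@[simp] lemma io_c_self (z : Z) (g : α) : (io (P := P) z g).c z = g := by
  simp [io_c]
lemma io_c_ne {z w : Z} (h : w ≠ z) (g : α) : (io (P := P) z g).c w = 1 := by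
  simp [io_c, Pi.mulSingle_eq_of_ne h]
@[simp] lemma io_p (z : Z) (g : α) : (io (P := P) z g).p = 1 := rfl

/-- conjugation by a rooted element moves the coordinates -/
lemma rt_conj_io (p : P) (z : Z) (g : α) : rt p * io z g * (rt p)⁻¹ = io (p • z) g := by
  ext w
  · simp only [mul_c, inv_c, rt_c, inv_p, rt_p, mul_p, one_mul, inv_one, mul_one]
    by_cases h : w = p • z
    · subst h; simp
    · have h' : p⁻¹ • w ≠ z := by
        intro e; apply h; rw [← e]; simp
      rw [io_c_ne h', io_c_ne h]
  · simp

lemma conj_rt (p : P) (g : Node P Z α) (h : g.p = 1) :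
    (rt p)⁻¹ * g * rt p = coord (fun z => g.c (p • z)) := by
  ext w
  · simp
  · simp [h]

/-- conjugation of `io z g` by an element with trivial label -/
lemma conj_io (e : Node P Z α) (he : e.p = 1) (z : Z) (g : α) :
    e * io z g * e⁻¹ = io z (e.c z * g * (e.c z)⁻¹) := by
  ext w
  · simp only [mul_c, inv_c, inv_p, he, inv_one, one_smul, mul_p, io_p, mul_one]
    by_cases h : w = z
    · subst h; simp
    · rw [io_c_ne h, io_c_ne h]; simp
  · simp [he]

open scoped commutatorElement in
/-- commutators that are concentrated in one coordinate -/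
lemma commutator_eq_io (e f : Node P Z α) (he : e.p = 1) (hf : f.p = 1) (z : Z)
    (h : ∀ w, w ≠ z → Commute (e.c w) (f.c w)) :
    ⁅e, f⁆ = io z ⁅e.c z, f.c z⁆ := by
  ext w
  · simp only [commutatorElement_def, mul_c, inv_c, inv_p, he, hf, inv_one, one_smul, mul_p,
      mul_one]
    by_cases hw : w = z
    · subst hw; simp
    · rw [io_c_ne hw]
      have := h w hw
      have h2 := this.eq
      rw [h2]; group
  · simp [commutatorElement_def, he, hf]

end node

/-! ### The iterated wreath product -/

def W (P Z : Type) : ℕ → Type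
  | 0 => PUnit
  | n + 1 => Node P Z (W P Z n)

section W

variable (P Z : Type) [Group P] [MulAction P Z]

instance instGroupW : (n : ℕ) → Group (W P Z n)
  | 0 => inferInstanceAs (Group PUnit)
  | n + 1 =>
    haveI := instGroupW n
    inferInstanceAs (Group (Node P Z (W P Z n)))

instance : Subsingleton (W P Z 0) := inferInstanceAs (Subsingleton PUnit)

/-- one level of the tree from `W (n+1)` -/
def cc {P Z : Type} {n : ℕ} (g : W P Z (n + 1)) : Z → W P Z n := Node.c g

instance finiteW [Finite P] [Finite Z] : (n : ℕ) → Finite (W P Z n)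
  | 0 => inferInstanceAs (Finite PUnit)
  | n + 1 => by
    haveI := finiteW n
    refine Finite.of_injective (β := (Z → W P Z n) × P)
      (fun g => (Node.c g, Node.p g)) ?_
    intro g h e
    simp only [Prod.mk.injEq] at e
    exact Node.ext e.1 e.2

lemma card_W_succ (n : ℕ) [Finite P] [Finite Z] :
    Nat.card (W P Z (n + 1)) = Nat.card (W P Z n) ^ Nat.card Z * Nat.card P := by
  have e : W P Z (n + 1) ≃ (Z → W P Z n) × P :=
    { toFun := fun g => (Node.c g, Node.p g)
      invFun := fun x => ⟨x.1, x.2⟩
      left_inv := fun g => rfl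
      right_inv := fun x => rfl }
  rw [Nat.card_congr e, Nat.card_prod, Nat.card_fun]

/-- restriction to one level less -/
def res : (n : ℕ) → (W P Z (n + 1) →* W P Z n)
  | 0 => 1
  | n + 1 =>
    { toFun := fun g => (⟨fun z => res n (Node.c g z), Node.p g⟩ : Node P Z (W P Z n))
      map_one' := by
        show (⟨_, _⟩ : Node P Z (W P Z n)) = 1
        ext z
        · exact map_one (res n)
        · rfl
      map_mul' := by
        intro g h
        show (⟨_, _⟩ : Node P Z (W P Z n)) = (⟨_, _⟩ : Node P Z (W P Z n)) * ⟨_, _⟩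
        ext z
        · exact map_mul (res n) _ _
        · rfl }

lemma res_succ_c (n : ℕ) (g : W P Z (n + 2)) (z : Z) :
    Node.c (res P Z (n + 1) g) z = res P Z n (Node.c g z) := rfl
lemma res_succ_p (n : ℕ) (g : W P Z (n + 2)) :
    Node.p (res P Z (n + 1) g) = Node.p g := rfl

/-- level `n` of the tree automorphism given by a state of an automaton with labels `lab` and
transitions `nxt` -/
def elW {P Z Q : Type} (lab : Q → P) (nxt : Q → Z → Q) : (n : ℕ) → Q → W P Z n
  | 0, _ => PUnit.unit
  | n + 1, q => (⟨fun z => elW lab nxt n (nxt q z), lab q⟩ : Node P Z (W P Z n))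

lemma elW_c {P Z Q : Type} (lab : Q → P) (nxt : Q → Z → Q) (n : ℕ) (q : Q) (z : Z) :
    Node.c (elW lab nxt (n + 1) q) z = elW lab nxt n (nxt q z) := rfl
lemma elW_p {P Z Q : Type} (lab : Q → P) (nxt : Q → Z → Q) (n : ℕ) (q : Q) :
    Node.p (elW lab nxt (n + 1) q) = lab q := rfl

lemma res_elW {Q : Type} (lab : Q → P) (nxt : Q → Z → Q) (n : ℕ) (q : Q) :
    res P Z n (elW lab nxt (n + 1) q) = elW lab nxt n q := by
  induction n generalizing q with
  | zero => exact Subsingleton.elim _ _
  | succ n ih =>
    apply Node.ext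
    · funext z; exact ih _
    · rfl

end W

end Pool.Agent.H82R2.Dim
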