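import Pool.Agent.H82R2.Dim.Base

/-! Groups generated by finite invertible automata and their level quotients, and the comparison
with the iterated wreath products `W P Z n`. -/

set_option linter.all false

namespace Pool.Agent.H82R2.Dim

/-- A (finite) invertible automaton over the alphabet `A` with set of states `Q`. -/
structure Mealy (Q A : Type) where
  out : Q → Equiv.Perm A
  nxt : Q → A → Q

variable {Q A : Type}

/-- the action of a state on finite words -/
def Mealy.act (M : Mealy Q A) : Q → List A → List A
  | _, [] => []
  | q, x :: w => M.out q x :: M.act (M.nxt q x) w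

/-- the inverse action -/
def Mealy.actInv (M : Mealy Q A) : Q → List A → List A
  | _, [] => []
  | q, y :: w => (M.out q).symm y :: M.actInv (M.nxt q ((M.out q).symm y)) w

/-- the action of a state on finite words, as a permutation of the set of words -/
def Mealy.perm (M : Mealy Q A) (q : Q) : Equiv.Perm (List A) where
  toFun := M.act q
  invFun := M.actInv q
  left_inv w := by
    induction w generalizing q with
    | nil => rfl
    | cons x w ih => simp [Mealy.act, Mealy.actInv, ih]
  right_inv w := by
    induction w generalizing q with
    | nil => rfl
    | cons x w ih => simp [Mealy.act, Mealy.actInv, ih]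

/-- the self-similar group generated by all states of the automaton -/
def Mealy.group (M : Mealy Q A) : Subgroup (Equiv.Perm (List A)) :=
  Subgroup.closure (Set.range M.perm)

/-- the permutations of the set of words which fix every vertex of level `n` -/
def levelStab (A : Type) (n : ℕ) : Subgroup (Equiv.Perm (List A)) where
  carrier := {g | ∀ w : List A, w.length = n → g w = w}
  one_mem' _ _ := rfl
  mul_mem' {g h} hg hh w hw := by
    rw [Equiv.Perm.mul_apply, hh w hw, hg w hw]
  inv_mem' {g} hg w hw := by
    have := hg w hw
    rw [Equiv.Perm.inv_eq_iff_eq]
    exact this.symm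

/-- `levelCard M n = |L / st_L(n)|`, where `L` is the group generated by the states of `M`. -/
noncomputable def Mealy.levelCard (M : Mealy Q A) (n : ℕ) : ℕ :=
  (levelStab A n).relIndex M.group

section bridge

variable {P Z : Type} [Group P] [MulAction P Z] [FaithfulSMul P Z]

/-- action of `W P Z n` on words -/
def actW : (n : ℕ) → W P Z n → List Z → List Z
  | 0, _, w => w
  | _ + 1, _, [] => []
  | n + 1, g, z :: w => (Node.p g • z) :: actW n (Node.c g z) w

lemma actW_one (n : ℕ) (w : List Z) : actW n (1 : W P Z n) w = w := by
  induction n generalizing w with
  | zero => rfl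
  | succ n ih =>
    cases w with
    | nil => rfl
    | cons z w =>
      show ((1 : P) • z) :: actW n (1 : W P Z n) w = z :: w
      rw [one_smul, ih]

lemma actW_mul (n : ℕ) (g h : W P Z n) (w : List Z) : actW n (g * h) w = actW n g (actW n h w) := by
  induction n generalizing w with
  | zero => rfl
  | succ n ih =>
    cases w with
    | nil => rfl
    | cons z w =>
      show ((Node.p g * Node.p h) • z) :: actW n (Node.c g (Node.p h • z) * Node.c h z) w
        = (Node.p g • (Node.p h • z)) :: actW n (Node.c g (Node.p h • z)) (actW n (Node.c h z) w)
      rw [mul_smul, ih]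

lemma actW_length (n : ℕ) (g : W P Z n) (w : List Z) : (actW n g w).length = w.length := by
  induction n generalizing w with
  | zero => rfl
  | succ n ih =>
    cases w with
    | nil => rfl
    | cons z w => simp [actW, ih]

lemma eq_one_of_actW (n : ℕ) (g : W P Z n) (h : ∀ w : List Z, w.length = n → actW n g w = w)
    [Nonempty Z] : g = 1 := by
  induction n with
  | zero => exact Subsingleton.elim _ _
  | succ n ih =>
    have h0 : Node.p g = 1 := by
      apply FaithfulSMul.eq_of_smul_eq_smul (α := Z)
      intro z
      have := h (z :: List.replicate n z) (by simp)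
      simp only [actW, List.cons.injEq] at this
      rw [this.1, one_smul]
    apply Node.ext
    · funext z
      apply ih
      intro w hw
      have := h (z :: w) (by simp [hw])
      simp only [actW, List.cons.injEq] at this
      exact this.2
    · exact h0

lemma act_eq_actW (lab : Q → P) (nxt : Q → Z → Q) (n : ℕ) (q : Q) (w : List Z)
    (hw : w.length = n) :
    Mealy.act (⟨fun q => MulAction.toPerm (lab q), nxt⟩ : Mealy Q Z) q w
      = actW n (elW lab nxt n q) w := by
  induction n generalizing q w with
  | zero =>
    have : w = [] := List.length_eq_zero_iff.1 hw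
    subst this; rfl
  | succ n ih =>
    cases w with
    | nil => simp at hw
    | cons z w =>
      have hw' : w.length = n := by simpa using hw
      show (lab q • z) :: _ = (lab q • z) :: actW n (elW lab nxt n (nxt q z)) w
      rw [ih _ _ hw']

theorem levelCard_eq [Nonempty Z] (lab : Q → P) (nxt : Q → Z → Q) (n : ℕ) :
    Mealy.levelCard (⟨fun q => MulAction.toPerm (lab q), nxt⟩ : Mealy Q Z) n
      = Nat.card (Subgroup.closure (Set.range (elW lab nxt n))) := by
  set M : Mealy Q Z := ⟨fun q => MulAction.toPerm (lab q), nxt⟩ with hM
  let α : FreeGroup Q →* Equiv.Perm (List Z) := FreeGroup.lift M.perm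
  let β : FreeGroup Q →* W P Z n := FreeGroup.lift (elW lab nxt n)
  have hα : α.range = M.group := FreeGroup.range_lift_eq_closure
  have hβ : β.range = Subgroup.closure (Set.range (elW lab nxt n)) :=
    FreeGroup.range_lift_eq_closure
  -- the two actions agree on words of length n
  have key : ∀ u : FreeGroup Q, ∀ w : List Z, w.length = n → α u w = actW n (β u) w := by
    intro u
    induction u using FreeGroup.induction_on with
    | C1 =>
      intro w hw
      rw [map_one, map_one, actW_one]; rfl
    | of q =>
      intro w hw
      simp only [α, β, FreeGroup.lift_apply_of]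
      exact act_eq_actW lab nxt n q w hw
    | inv_of q ih =>
      intro w hw
      rw [map_inv, map_inv, Equiv.Perm.inv_eq_iff_eq]
      have h1 := ih (actW n (β (FreeGroup.of q))⁻¹ w) (by rw [actW_length, hw])
      rw [← actW_mul, mul_inv_cancel, actW_one] at h1
      exact h1.symm
    | mul u v hu hv =>
      intro w hw
      rw [map_mul, map_mul, Equiv.Perm.mul_apply, hv w hw, actW_mul]
      exact hu _ (by rw [actW_length, hw])
  have hker : (levelStab Z n).comap α = β.ker := by
    ext u
    rw [Subgroup.mem_comap, MonoidHom.mem_ker]
    constructor
    · intro h
      apply eq_one_of_actW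
      intro w hw
      rw [← key u w hw]
      exact h w hw
    · intro h w hw
      rw [key u w hw, h, actW_one]
  unfold Mealy.levelCard
  rw [← hα, ← Subgroup.index_comap, hker, Subgroup.index_ker, hβ]

end bridge

end Pool.Agent.H82R2.Dim
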