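import Pool.Agent.H82R2.Dim.WLem

/-! Branching: commutators in a single coordinate. -/

set_option linter.all false

namespace Pool.Agent.H82R2.Dim

open Q
open scoped commutatorElement

/-! ### two general lemmas -/

section general

variable {Γ : Type*} [Group Γ]

/-- `K` is normalised by `closure S` -/
lemma conj_mem_of_closure {S : Set Γ} {K : Subgroup Γ}
    (h1 : ∀ s ∈ S, ∀ k ∈ K, s * k * s⁻¹ ∈ K) (h2 : ∀ s ∈ S, ∀ k ∈ K, s⁻¹ * k * s ∈ K)
    {g : Γ} (hg : g ∈ Subgroup.closure S) : ∀ k ∈ K, g * k * g⁻¹ ∈ K ∧ g⁻¹ * k * g ∈ K := by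
  induction hg using Subgroup.closure_induction with
  | mem x hx => exact fun k hk => ⟨h1 x hx k hk, h2 x hx k hk⟩
  | one => intro k hk; simpa using hk
  | mul x y _ _ hx hy =>
    intro k hk
    refine ⟨?_, ?_⟩
    · have := (hx _ (hy k hk).1).1
      have e : x * (y * k * y⁻¹) * x⁻¹ = x * y * k * (x * y)⁻¹ := by group
      rwa [e] at this
    · have := (hy _ (hx k hk).2).2
      have e : y⁻¹ * (x⁻¹ * k * x) * y = (x * y)⁻¹ * k * (x * y) := by group
      rwa [e] at this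
  | inv x _ hx =>
    intro k hk
    refine ⟨?_, ?_⟩
    · rw [inv_inv]; exact (hx k hk).2
    · rw [inv_inv]; exact (hx k hk).1

/-- commutators with conjugates of elements of `T` -/
lemma commutator_mem_of_gens {S T : Set Γ} {K : Subgroup Γ}
    (h1 : ∀ s ∈ S, ∀ k ∈ K, s * k * s⁻¹ ∈ K) (h2 : ∀ s ∈ S, ∀ k ∈ K, s⁻¹ * k * s ∈ K)
    (hT : T ⊆ Subgroup.closure S)
    (hc : ∀ s ∈ S, ∀ t ∈ T, ⁅s, t⁆ ∈ K)
    {g ν : Γ} (hg : g ∈ Subgroup.closure S)
    (hν : ν ∈ Subgroup.closure {x | ∃ h ∈ Subgroup.closure S, ∃ t ∈ T, x = h * t * h⁻¹}) :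
    ⁅g, ν⁆ ∈ K := by
  have hn := fun {g : Γ} (hg : g ∈ Subgroup.closure S) => conj_mem_of_closure h1 h2 hg
  -- first: ⁅g,t⁆ ∈ K
  have step1 : ∀ t ∈ T, ∀ g ∈ Subgroup.closure S, ⁅g, t⁆ ∈ K := by
    intro t ht g hg
    induction hg using Subgroup.closure_induction with
    | mem x hx => exact hc x hx t ht
    | one => rw [commutatorElement_one_left]; exact K.one_mem
    | mul x y hx hy ihx ihy =>
      have e : ⁅x * y, t⁆ = (x * ⁅y, t⁆ * x⁻¹) * ⁅x, t⁆ := by
        simp only [commutatorElement_def]; group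
      rw [e]
      exact K.mul_mem (hn hx _ ihy).1 ihx
    | inv x hx ihx =>
      have e : ⁅x⁻¹, t⁆ = x⁻¹ * (⁅x, t⁆)⁻¹ * x := by
        simp only [commutatorElement_def]; group
      rw [e]
      exact (hn hx _ (K.inv_mem ihx)).2
  have hsub : Subgroup.closure {x | ∃ h ∈ Subgroup.closure S, ∃ t ∈ T, x = h * t * h⁻¹}
      ≤ Subgroup.closure S := by
    rw [Subgroup.closure_le]
    rintro x ⟨h, hh, t, ht, rfl⟩
    exact mul_mem (mul_mem hh (hT ht)) (inv_mem hh)
  revert g
  induction hν using Subgroup.closure_induction with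
  | mem x hx =>
    intro g hg
    obtain ⟨h, hh, t, ht, rfl⟩ := hx
    have e : ⁅g, h * t * h⁻¹⁆ = h * ⁅h⁻¹ * g * h, t⁆ * h⁻¹ := by
      simp only [commutatorElement_def]; group
    rw [e]
    exact (hn hh _ (step1 t ht _ (mul_mem (mul_mem (inv_mem hh) hg) hh))).1
  | one => intro g hg; rw [commutatorElement_one_right]; exact K.one_mem
  | mul x y hx hy ihx ihy =>
    intro g hg
    have e : ⁅g, x * y⁆ = ⁅g, x⁆ * (x * ⁅g, y⁆ * x⁻¹) := by
      simp only [commutatorElement_def]; group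
    rw [e]
    exact K.mul_mem (ihx hg) (hn (hsub hx) _ (ihy hg)).1
  | inv x hx ihx =>
    intro g hg
    have e : ⁅g, x⁻¹⁆ = x⁻¹ * (⁅g, x⁆)⁻¹ * x := by
      simp only [commutatorElement_def]; group
    rw [e]
    exact (hn (hsub hx) _ (K.inv_mem (ihx hg))).2

end general

variable {n : ℕ}

/-- the set of the seven generators -/
def S (n : ℕ) : Set (V n) := {x | ∃ j, j < 7 ∧ x = el n (gen j)}

lemma G_eq (n : ℕ) : G n = Subgroup.closure (S n) := by
  apply le_antisymm
  · unfold G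
    rw [Subgroup.closure_le]
    rintro _ ⟨q, rfl⟩
    have hm : ∀ j, j < 7 → el n (gen j) ∈ Subgroup.closure (S n) := fun j hj =>
      Subgroup.subset_closure ⟨j, hj, rfl⟩
    cases q with
    | e => show el n e ∈ _; rw [el_e]; exact Subgroup.one_mem _
    | s => exact hm 0 (by norm_num)
    | a => exact hm 1 (by norm_num)
    | b => exact hm 2 (by norm_num)
    | c => show el n c ∈ _; rw [el_c_eq]; exact mul_mem (hm 0 (by norm_num)) (hm 1 (by norm_num))
    | l => exact hm 3 (by norm_num)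
    | f => exact hm 4 (by norm_num)
    | d1 => exact hm 5 (by norm_num)
    | d2 => exact hm 6 (by norm_num)
  · rw [Subgroup.closure_le]
    rintro _ ⟨j, hj, rfl⟩
    exact el_mem _ _

/-- translated directed elements -/
def D1 (n : ℕ) (t : ZMod 64) : V (n + 1) := (wrt (pR t))⁻¹ * el (n + 1) d1 * wrt (pR t)
def D2 (n : ℕ) (t : ZMod 64) : V (n + 1) := (wrt (pR t))⁻¹ * el (n + 1) d2 * wrt (pR t)

lemma D1_mem (t : ZMod 64) : D1 n t ∈ G (n + 1) :=
  mul_mem (mul_mem (inv_mem (wrt_pR_mem t)) (el_mem _ _)) (wrt_pR_mem t)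
lemma D2_mem (t : ZMod 64) : D2 n t ∈ G (n + 1) :=
  mul_mem (mul_mem (inv_mem (wrt_pR_mem t)) (el_mem _ _)) (wrt_pR_mem t)

lemma D1_p (t : ZMod 64) : wp (D1 n t) = 1 := by
  rw [D1, conj_wrt_p]; rfl
lemma D2_p (t : ZMod 64) : wp (D2 n t) = 1 := by
  rw [D2, conj_wrt_p]; rfl
lemma D1_inl (t : ZMod 64) (x : ZMod 2) : wc (D1 n t) (Sum.inl x) = el n (nxt d1 (Sum.inl x)) := by
  rw [D1, conj_wrt_c, pR_inl]; rfl
lemma D2_inl (t : ZMod 64) (x : ZMod 2) : wc (D2 n t) (Sum.inl x) = el n (nxt d2 (Sum.inl x)) := by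
  rw [D2, conj_wrt_c, pR_inl]; rfl
lemma D1_inr (t r : ZMod 64) : wc (D1 n t) (Sum.inr r) = el n (gen (t + r).val) := by
  rw [D1, conj_wrt_c, pR_inr]; rfl
lemma D2_inr (t r : ZMod 64) : wc (D2 n t) (Sum.inr r)
    = el n (if (t + r).val % 8 = 0 then gen ((t + r).val / 8) else e) := by
  rw [D2, conj_wrt_c, pR_inr]; rfl

lemma gen_ge {k : ℕ} (h : 7 ≤ k) : gen k = e := by
  match k, h with
  | k + 7, _ => rfl

lemma val_natCast_add (j : ℕ) (r : ZMod 64) : ((j : ZMod 64) + r).val = (j + r.val) % 64 := by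
  rw [ZMod.val_add, ZMod.val_natCast, Nat.mod_add_mod]

lemma commute_e_left (q : Q) : Commute (el n e) (el n q) := by
  rw [el_e]; exact Commute.one_left _
lemma commute_e_right (q : Q) : Commute (el n q) (el n e) := by
  rw [el_e]; exact Commute.one_right _

/-- the basic commutator at the letter `inr 0` -/
lemma basic_comm {i j : ℕ} (hi : i < 7) (hj : j < 7) :
    wio (Sum.inr 0) ⁅el n (gen j), el n (gen i)⁆ = ⁅D1 n (j : ZMod 64), D2 n ((8 * i : ℕ) : ZMod 64)⁆ := by
  have h := wcommutator_eq (D1 n (j : ZMod 64)) (D2 n ((8 * i : ℕ) : ZMod 64)) (D1_p _) (D2_p _)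
    (Sum.inr 0) (by
      intro w hw
      rcases w with x | r
      · rw [D1_inl, D2_inl]
        show Commute (el n (if x = 0 then d1 else e)) (el n (if x = 0 then e else d2))
        by_cases hx : x = 0
        · rw [if_pos hx, if_pos hx]; exact commute_e_right _
        · rw [if_neg hx]; exact commute_e_left _
      · have hr : r ≠ 0 := fun e => hw (by rw [e])
        have hr' : r.val ≠ 0 := by rwa [Ne, ZMod.val_eq_zero]
        have hrl : r.val < 64 := ZMod.val_lt r
        rw [D1_inr, D2_inr, val_natCast_add, val_natCast_add]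
        by_cases h1 : 7 ≤ (j + r.val) % 64
        · rw [gen_ge h1]; exact commute_e_left _
        · by_cases h2 : (8 * i + r.val) % 64 % 8 = 0
          · rw [if_pos h2]
            have h3 : 7 ≤ (8 * i + r.val) % 64 / 8 := by omega
            rw [gen_ge h3]; exact commute_e_right _
          · rw [if_neg h2]; exact commute_e_right _)
  rw [h]
  congr 2
  · rw [D1_inr, val_natCast_add]
    simp only [ZMod.val_zero, add_zero]
    rw [Nat.mod_eq_of_lt (by omega)]
  · rw [D2_inr, val_natCast_add]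
    simp only [ZMod.val_zero, add_zero]
    have h8 : 8 * i < 64 := by omega
    rw [Nat.mod_eq_of_lt h8, if_pos (by omega)]
    congr 2; omega

/-- `J n = [G n, G n]` -/
def J (n : ℕ) : Subgroup (V n) := ⁅G n, G n⁆

lemma S_subset_closure_conj (n : ℕ) : G n ≤
    Subgroup.closure {x | ∃ h ∈ Subgroup.closure (S n), ∃ t ∈ S n, x = h * t * h⁻¹} := by
  rw [G_eq, Subgroup.closure_le]
  intro x hx
  exact Subgroup.subset_closure ⟨1, one_mem _, x, hx, by simp⟩

theorem wio_J_zero {g : V n} (hg : g ∈ J n) : wio (Sum.inr 0) g ∈ G (n + 1) := by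
  let K : Subgroup (V n) := (G (n + 1)).comap (wio (Sum.inr 0))
  have hle : J n ≤ K := by
    unfold J
    rw [Subgroup.commutator_le]
    intro g₁ h₁ g₂ h₂
    rw [G_eq] at h₁
    have key : ∀ j, j < 7 → ∀ k ∈ K, el n (gen j) * k * (el n (gen j))⁻¹ ∈ K ∧
        (el n (gen j))⁻¹ * k * el n (gen j) ∈ K := by
      intro j hj k hk
      have hc : wc (D1 n (j : ZMod 64)) (Sum.inr 0) = el n (gen j) := by
        rw [D1_inr, val_natCast_add]
        simp only [ZMod.val_zero, add_zero]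
        rw [Nat.mod_eq_of_lt (by omega)]
      have h1 := conj_wio (D1 n (j : ZMod 64)) (D1_p _) (Sum.inr 0) k
      have h2 := conj_wio (D1 n (j : ZMod 64))⁻¹ (by rw [w_inv_p, D1_p]; rfl) (Sum.inr 0) k
      rw [hc] at h1
      rw [w_inv_c, D1_p, inv_one, one_smul, hc, inv_inv, inv_inv] at h2
      refine ⟨?_, ?_⟩
      · show wio _ _ ∈ G (n + 1)
        rw [← h1]
        exact mul_mem (mul_mem (D1_mem _) hk) (inv_mem (D1_mem _))
      · show wio _ _ ∈ G (n + 1)
        rw [← h2]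
        exact mul_mem (mul_mem (inv_mem (D1_mem _)) hk) (D1_mem _)
    refine commutator_mem_of_gens (S := S n) (T := S n) (K := K) ?_ ?_
      Subgroup.subset_closure ?_ h₁ (S_subset_closure_conj n h₂)
    · rintro _ ⟨j, hj, rfl⟩ k hk; exact (key j hj k hk).1
    · rintro _ ⟨j, hj, rfl⟩ k hk; exact (key j hj k hk).2
    · rintro _ ⟨j, hj, rfl⟩ _ ⟨i, hi, rfl⟩
      show wio _ _ ∈ G (n + 1)
      rw [basic_comm hi hj]
      rw [commutatorElement_def]
      exact mul_mem (mul_mem (mul_mem (D1_mem _) (D2_mem _)) (inv_mem (D1_mem _)))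
        (inv_mem (D2_mem _))
  exact hle hg

theorem wio_J (r : ZMod 64) {g : V n} (hg : g ∈ J n) : wio (Sum.inr r) g ∈ G (n + 1) := by
  have h := wrt_conj_wio (n := n) (pR r) (Sum.inr 0) g
  rw [pR_inr, add_zero] at h
  rw [← h]
  exact mul_mem (mul_mem (wrt_pR_mem r) (wio_J_zero hg)) (inv_mem (wrt_pR_mem r))

end Pool.Agent.H82R2.Dim
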