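import Pool.Agent.H82R2.Dim.Comm

/-! Branching at the letters `inl x`. -/

set_option linter.all false

namespace Pool.Agent.H82R2.Dim

open Q
open scoped commutatorElement

variable {n : ℕ}

/-- conjugation by the rooted swap -/
def cX (g : V (n + 1)) : V (n + 1) := (wrt pX)⁻¹ * g * wrt pX

lemma cX_mem {g : V (n + 1)} (h : g ∈ G (n + 1)) : cX g ∈ G (n + 1) :=
  mul_mem (mul_mem (inv_mem wrt_pX_mem) h) wrt_pX_mem
lemma cX_p (g : V (n + 1)) : wp (cX g) = wp g := conj_wrt_p pX g
lemma cX_inl (g : V (n + 1)) (x : ZMod 2) : wc (cX g) (Sum.inl x) = wc g (Sum.inl (1 + x)) := by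
  rw [cX, conj_wrt_c, pX_inl]
lemma cX_inr (g : V (n + 1)) (r : ZMod 64) : wc (cX g) (Sum.inr r) = wc g (Sum.inr r) := by
  rw [cX, conj_wrt_c, pX_inr]

def U0 (n : ℕ) : V (n + 1) := (el (n + 1) b)⁻¹ * cX (el (n + 1) b)

lemma U0_mem : U0 n ∈ G (n + 1) := mul_mem (inv_mem (el_mem _ _)) (cX_mem (el_mem _ _))
lemma U0_p : wp (U0 n) = 1 := by
  rw [U0, w_mul_p, w_inv_p, cX_p, elp]; rfl
lemma U0_c (z : Z) : wc (U0 n) z = (el n (nxt b z))⁻¹ * wc (cX (el (n + 1) b)) z := by
  rw [U0, w_mul_c, w_inv_c, cX_p, elp, elc]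
  have : (lab b)⁻¹ • (lab b • z) = z := inv_smul_smul _ _
  rw [this]
lemma U0_0 : wc (U0 n) (Sum.inl 0) = el n s := by
  rw [U0_c, cX_inl, elc]
  show (el n a)⁻¹ * el n c = el n s
  rw [el_c_eq, (el_s_comm_a' n).eq]; group
lemma U0_1 : wc (U0 n) (Sum.inl 1) = (el n c)⁻¹ * el n a := by
  rw [U0_c, cX_inl, elc]; rfl
lemma U0_r (r : ZMod 64) : wc (U0 n) (Sum.inr r) = 1 := by
  rw [U0_c, cX_inr, elc]
  show (el n e)⁻¹ * el n e = 1
  rw [inv_mul_cancel]

lemma pair {E F : V (n + 1)} (hE : E ∈ G (n + 1)) (hF : F ∈ G (n + 1)) (pE : wp E = 1)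
    (pF : wp F = 1) (h1 : Commute (wc E (Sum.inl 1)) (wc F (Sum.inl 1)))
    (hr : ∀ r, Commute (wc E (Sum.inr r)) (wc F (Sum.inr r))) :
    wio (Sum.inl 0) ⁅wc E (Sum.inl 0), wc F (Sum.inl 0)⁆ ∈ G (n + 1) := by
  rw [← wcommutator_eq E F pE pF (Sum.inl 0)]
  · rw [commutatorElement_def]
    exact mul_mem (mul_mem (mul_mem hE hF) (inv_mem hE)) (inv_mem hF)
  · intro w hw
    rcases w with x | r
    · have hx : x ≠ 0 := fun e => hw (by rw [e])
      have hx1 : x = 1 := by
        revert hx; revert x; decide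
      rw [hx1]; exact h1
    · exact hr r

def T (n : ℕ) : Set (V n) := {x | x = el n l ∨ x = el n f ∨ x = el n d1 ∨ x = el n d2}

/-- the part of the group acting trivially on the words over `inl` letters -/
def Nc (n : ℕ) : Subgroup (V n) :=
  Subgroup.closure {x | ∃ h ∈ Subgroup.closure (S n), ∃ t ∈ T n, x = h * t * h⁻¹}

lemma T_subset : T n ⊆ Subgroup.closure (S n) := by
  rw [← G_eq]
  rintro x (rfl | rfl | rfl | rfl) <;> exact el_mem _ _

lemma nxt_d2_inr (r : ZMod 64) :
    nxt d2 (Sum.inr r) = if r.val % 8 = 0 then gen (r.val / 8) else e := rfl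

/-- supports of the shifted `d1` and of `d2` on the letters `inr` are disjoint -/
lemma disj (r : ZMod 64) : Commute (wc (D1 n (7 : ℕ)) (Sum.inr r))
    (wc (cX (el (n + 1) d2)) (Sum.inr r)) := by
  rw [D1_inr, cX_inr, elc, nxt_d2_inr, val_natCast_add]
  have hrl : r.val < 64 := ZMod.val_lt r
  by_cases h1 : 7 ≤ (7 + r.val) % 64
  · rw [gen_ge h1]; exact commute_e_left _
  · by_cases h2 : r.val % 8 = 0
    · omega
    · rw [if_neg h2]; exact commute_e_right _

theorem wio_K_zero {g ν : V n} (hg : g ∈ G n) (hν : ν ∈ Nc n) :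
    wio (Sum.inl 0) ⁅g, ν⁆ ∈ G (n + 1) := by
  let K : Subgroup (V n) := (G (n + 1)).comap (wio (Sum.inl 0))
  -- sections at `inl 0`
  have sec : ∀ j, j < 7 → ∃ E ∈ G (n + 1), wp E = 1 ∧ wc E (Sum.inl 0) = el n (gen j) := by
    intro j hj
    match j, hj with
    | 0, _ => exact ⟨U0 n, U0_mem, U0_p, U0_0⟩
    | 1, _ => exact ⟨el (n + 1) b, el_mem _ _, rfl, rfl⟩
    | 2, _ => exact ⟨el (n + 1) a, el_mem _ _, rfl, rfl⟩
    | 3, _ => exact ⟨cX (el (n + 1) f), cX_mem (el_mem _ _), by rw [cX_p]; rfl, by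
        rw [cX_inl]; rfl⟩
    | 4, _ => exact ⟨el (n + 1) f, el_mem _ _, rfl, rfl⟩
    | 5, _ => exact ⟨el (n + 1) d1, el_mem _ _, rfl, rfl⟩
    | 6, _ => exact ⟨cX (el (n + 1) d2), cX_mem (el_mem _ _), by rw [cX_p]; rfl, by
        rw [cX_inl]; rfl⟩
  have key : ∀ j, j < 7 → ∀ k ∈ K, el n (gen j) * k * (el n (gen j))⁻¹ ∈ K ∧
      (el n (gen j))⁻¹ * k * el n (gen j) ∈ K := by
    intro j hj k hk
    obtain ⟨E, hE, pE, cE⟩ := sec j hj
    have h1 := conj_wio E pE (Sum.inl 0) k
    have h2 := conj_wio E⁻¹ (by rw [w_inv_p, pE]; rfl) (Sum.inl 0) k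
    rw [cE] at h1
    rw [w_inv_c, pE, inv_one, one_smul, cE, inv_inv, inv_inv] at h2
    refine ⟨?_, ?_⟩
    · show wio _ _ ∈ G (n + 1)
      rw [← h1]
      exact mul_mem (mul_mem hE hk) (inv_mem hE)
    · show wio _ _ ∈ G (n + 1)
      rw [← h2]
      exact mul_mem (mul_mem (inv_mem hE) hk) hE
  have one_K : ∀ {x y : V n}, Commute x y → ⁅x, y⁆ ∈ K := by
    intro x y h
    rw [commutatorElement_eq_one_iff_commute.2 h]; exact K.one_mem
  have hX : (1 : ZMod 2) + 0 = 1 := by decide
  have hX1 : (1 : ZMod 2) + 1 = 0 := by decide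
  -- shorthand facts
  have Fl0 : wc (cX (el (n + 1) f)) (Sum.inl 0) = el n l := by rw [cX_inl]; rfl
  have Fl1 : wc (cX (el (n + 1) f)) (Sum.inl 1) = el n f := by rw [cX_inl]; rfl
  have Flr : ∀ r, wc (cX (el (n + 1) f)) (Sum.inr r) = 1 := by
    intro r; rw [cX_inr]; exact el_e n
  have Flp : wp (cX (el (n + 1) f)) = 1 := by rw [cX_p]; rfl
  have Flm : cX (el (n + 1) f) ∈ G (n + 1) := cX_mem (el_mem _ _)
  have Fd0 : wc (cX (el (n + 1) d2)) (Sum.inl 0) = el n d2 := by rw [cX_inl]; rfl
  have Fd1 : wc (cX (el (n + 1) d2)) (Sum.inl 1) = 1 := by rw [cX_inl]; exact el_e n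
  have Fdp : wp (cX (el (n + 1) d2)) = 1 := by rw [cX_p]; rfl
  have Fdm : cX (el (n + 1) d2) ∈ G (n + 1) := cX_mem (el_mem _ _)
  have a0 : wc (el (n + 1) a) (Sum.inl 0) = el n b := rfl
  have a1 : wc (el (n + 1) a) (Sum.inl 1) = el n b := rfl
  have ar : ∀ r, wc (el (n + 1) a) (Sum.inr r) = 1 := fun r => el_e n
  have b0 : wc (el (n + 1) b) (Sum.inl 0) = el n a := rfl
  have b1 : wc (el (n + 1) b) (Sum.inl 1) = el n c := rfl
  have br : ∀ r, wc (el (n + 1) b) (Sum.inr r) = 1 := fun r => el_e n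
  have f0 : wc (el (n + 1) f) (Sum.inl 0) = el n f := rfl
  have f1 : wc (el (n + 1) f) (Sum.inl 1) = el n l := rfl
  have fr : ∀ r, wc (el (n + 1) f) (Sum.inr r) = 1 := fun r => el_e n
  have d0 : wc (el (n + 1) d1) (Sum.inl 0) = el n d1 := rfl
  have dd1 : wc (el (n + 1) d1) (Sum.inl 1) = 1 := el_e n
  have S0 : wc (D1 n (7 : ℕ)) (Sum.inl 0) = el n d1 := by rw [D1_inl]; rfl
  have S1 : wc (D1 n (7 : ℕ)) (Sum.inl 1) = 1 := by rw [D1_inl]; exact el_e n
  have pa : wp (el (n + 1) a) = 1 := rfl
  have pb : wp (el (n + 1) b) = 1 := rfl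
  have pf : wp (el (n + 1) f) = 1 := rfl
  have pd : wp (el (n + 1) d1) = 1 := rfl
  have ma : el (n + 1) a ∈ G (n + 1) := el_mem _ _
  have mb : el (n + 1) b ∈ G (n + 1) := el_mem _ _
  have mf : el (n + 1) f ∈ G (n + 1) := el_mem _ _
  have md : el (n + 1) d1 ∈ G (n + 1) := el_mem _ _
  -- all commutators [gen j, t]
  have hc : ∀ x ∈ S n, ∀ t ∈ T n, ⁅x, t⁆ ∈ K := by
    rintro _ ⟨j, hj, rfl⟩ t ht
    rcases ht with rfl | rfl | rfl | rfl
    · -- t = l
      match j, hj with
      | 0, _ => exact one_K (comm_l_s n).symm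
      | 1, _ => exact one_K (comm_l_a n).symm
      | 2, _ => exact one_K (comm_l_b n).symm
      | 3, _ => exact one_K (Commute.refl _)
      | 4, _ => exact one_K (comm_l_f n).symm
      | 5, _ =>
        have := pair md Flm pd Flp (by rw [dd1]; exact Commute.one_left _)
          (by intro r; rw [Flr]; exact Commute.one_right _)
        rw [d0, Fl0] at this; exact this
      | 6, _ =>
        have := pair Fdm Flm Fdp Flp (by rw [Fd1]; exact Commute.one_left _)
          (by intro r; rw [Flr]; exact Commute.one_right _)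
        rw [Fd0, Fl0] at this; exact this
    · -- t = f
      match j, hj with
      | 0, _ =>
        have := pair (U0_mem (n := n)) mf U0_p pf (by
            rw [U0_1, f1]
            exact ((comm_l_c n).symm.inv_left.mul_left (comm_l_a n).symm))
          (by intro r; rw [fr]; exact Commute.one_right _)
        rw [U0_0, f0] at this; exact this
      | 1, _ =>
        have := pair mb mf pb pf (by rw [b1, f1]; exact (comm_l_c n).symm)
          (by intro r; rw [fr]; exact Commute.one_right _)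
        rw [b0, f0] at this; exact this
      | 2, _ =>
        have := pair ma mf pa pf (by rw [a1, f1]; exact (comm_l_b n).symm)
          (by intro r; rw [fr]; exact Commute.one_right _)
        rw [a0, f0] at this; exact this
      | 3, _ => exact one_K (comm_l_f n)
      | 4, _ => exact one_K (Commute.refl _)
      | 5, _ =>
        have := pair md mf pd pf (by rw [dd1]; exact Commute.one_left _)
          (by intro r; rw [fr]; exact Commute.one_right _)
        rw [d0, f0] at this; exact this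
      | 6, _ =>
        have := pair Fdm mf Fdp pf (by rw [Fd1]; exact Commute.one_left _)
          (by intro r; rw [fr]; exact Commute.one_right _)
        rw [Fd0, f0] at this; exact this
    · -- t = d1
      match j, hj with
      | 0, _ =>
        have := pair (U0_mem (n := n)) md U0_p pd (by rw [dd1]; exact Commute.one_right _)
          (by intro r; rw [U0_r]; exact Commute.one_left _)
        rw [U0_0, d0] at this; exact this
      | 1, _ =>
        have := pair mb md pb pd (by rw [dd1]; exact Commute.one_right _)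
          (by intro r; rw [br]; exact Commute.one_left _)
        rw [b0, d0] at this; exact this
      | 2, _ =>
        have := pair ma md pa pd (by rw [dd1]; exact Commute.one_right _)
          (by intro r; rw [ar]; exact Commute.one_left _)
        rw [a0, d0] at this; exact this
      | 3, _ =>
        have := pair Flm md Flp pd (by rw [dd1]; exact Commute.one_right _)
          (by intro r; rw [Flr]; exact Commute.one_left _)
        rw [Fl0, d0] at this; exact this
      | 4, _ =>
        have := pair mf md pf pd (by rw [dd1]; exact Commute.one_right _)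
          (by intro r; rw [fr]; exact Commute.one_left _)
        rw [f0, d0] at this; exact this
      | 5, _ => exact one_K (Commute.refl _)
      | 6, _ =>
        have := pair Fdm (D1_mem (n := n) (7 : ℕ)) Fdp (D1_p _)
          (by rw [Fd1]; exact Commute.one_left _)
          (by intro r; exact (disj r).symm)
        rw [Fd0, S0] at this; exact this
    · -- t = d2
      match j, hj with
      | 0, _ =>
        have := pair (U0_mem (n := n)) Fdm U0_p Fdp (by rw [Fd1]; exact Commute.one_right _)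
          (by intro r; rw [U0_r]; exact Commute.one_left _)
        rw [U0_0, Fd0] at this; exact this
      | 1, _ =>
        have := pair mb Fdm pb Fdp (by rw [Fd1]; exact Commute.one_right _)
          (by intro r; rw [br]; exact Commute.one_left _)
        rw [b0, Fd0] at this; exact this
      | 2, _ =>
        have := pair ma Fdm pa Fdp (by rw [Fd1]; exact Commute.one_right _)
          (by intro r; rw [ar]; exact Commute.one_left _)
        rw [a0, Fd0] at this; exact this
      | 3, _ =>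
        have := pair Flm Fdm Flp Fdp (by rw [Fd1]; exact Commute.one_right _)
          (by intro r; rw [Flr]; exact Commute.one_left _)
        rw [Fl0, Fd0] at this; exact this
      | 4, _ =>
        have := pair mf Fdm pf Fdp (by rw [Fd1]; exact Commute.one_right _)
          (by intro r; rw [fr]; exact Commute.one_left _)
        rw [f0, Fd0] at this; exact this
      | 5, _ =>
        have := pair (D1_mem (n := n) (7 : ℕ)) Fdm (D1_p _) Fdp
          (by rw [Fd1]; exact Commute.one_right _)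
          (by intro r; exact disj r)
        rw [S0, Fd0] at this; exact this
      | 6, _ => exact one_K (Commute.refl _)
  rw [G_eq] at hg
  refine commutator_mem_of_gens (S := S n) (T := T n) (K := K) ?_ ?_ T_subset hc hg hν
  · rintro _ ⟨j, hj, rfl⟩ k hk; exact (key j hj k hk).1
  · rintro _ ⟨j, hj, rfl⟩ k hk; exact (key j hj k hk).2

/-- `K n = [G n, Nc n]` -/
def K (n : ℕ) : Subgroup (V n) := ⁅G n, Nc n⁆

theorem wio_K (x : ZMod 2) {g : V n} (hg : g ∈ K n) : wio (Sum.inl x) g ∈ G (n + 1) := by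
  have h0 : wio (Sum.inl 0) g ∈ G (n + 1) := by
    have : K n ≤ (G (n + 1)).comap (wio (Sum.inl 0)) := by
      unfold K
      rw [Subgroup.commutator_le]
      intro g₁ h₁ g₂ h₂
      exact wio_K_zero h₁ h₂
    exact this hg
  by_cases hx : x = 0
  · rw [hx]; exact h0
  · have hx1 : x = 1 := by revert hx; revert x; decide
    have h := wrt_conj_wio (n := n) pX (Sum.inl 0) g
    rw [pX_inl] at h
    rw [hx1]
    show wio (Sum.inl (1 + 0)) g ∈ G (n + 1)
    rw [← h]
    exact mul_mem (mul_mem wrt_pX_mem h0) (inv_mem wrt_pX_mem)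

end Pool.Agent.H82R2.Dim
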