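import Pool.Agent.H82R2.Dim.Bridge

/-! Hausdorff dimensions from the growth of the level quotients. -/

set_option linter.all false

namespace Pool.Agent.H82R2.Dim

open Filter

/-- The Hausdorff dimension of the closure in `Aut T_m` of the group `L` generated by the states
of the automaton `M` over an alphabet with `m` letters:
`liminf log |L/st_L(n)| / log |Aut T/st(n)|`, where `|Aut T/st(n)| = (m!)^(1+m+...+m^(n-1))`. -/
noncomputable def Mealy.hdim {Q A : Type} [Fintype A] (M : Mealy Q A) : ℝ :=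
  Filter.liminf (fun n : ℕ => Real.log (M.levelCard n) /
    Real.log ((Nat.factorial (Fintype.card A) : ℝ) ^ (∑ i ∈ Finset.range n, (Fintype.card A) ^ i)))
    Filter.atTop

/-- The Hausdorff dimension relative to a Sylow pro-`p` subgroup of `Aut T_m`: now the denominator
is the logarithm of the order of a Sylow `p`-subgroup of `Aut T/st(n)`, that is of
`p^v`, `v` the exponent of `p` in `|Aut T/st(n)| = (m!)^(1+m+...+m^(n-1))`. -/
noncomputable def Mealy.hdimSylow {Q A : Type} [Fintype A] (p : ℕ) (M : Mealy Q A) : ℝ :=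
  Filter.liminf (fun n : ℕ => Real.log (M.levelCard n) /
    Real.log ((p : ℝ) ^ (padicValNat p
      ((Nat.factorial (Fintype.card A)) ^ (∑ i ∈ Finset.range n, (Fintype.card A) ^ i)))))
    Filter.atTop

lemma tendsto_ratio {m : ℕ} (hm : 2 ≤ m) {c : ℕ → ℝ} {S D : ℝ} (hD : D ≠ 0)
    (h : Tendsto (fun n : ℕ => c n / (m : ℝ) ^ n) atTop (nhds S)) :
    Tendsto (fun n : ℕ => c n / (((∑ i ∈ Finset.range n, m ^ i : ℕ) : ℝ) * D)) atTop
      (nhds (((m : ℝ) - 1) / D * S)) := by
  have hm1 : (1 : ℝ) < m := by exact_mod_cast (by omega : 1 < m)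
  have hm0 : (0 : ℝ) < m := by linarith
  have hgeo : ∀ n : ℕ, ((m : ℝ) - 1) * ((∑ i ∈ Finset.range n, m ^ i : ℕ) : ℝ) = (m : ℝ) ^ n - 1 := by
    intro n
    induction n with
    | zero => simp
    | succ n ih =>
      rw [Finset.sum_range_succ]
      push_cast at ih ⊢
      rw [mul_add, ih]; ring
  have hpow : Tendsto (fun n : ℕ => (1 : ℝ) - (1 / (m : ℝ)) ^ n) atTop (nhds (1 - 0)) :=
    tendsto_const_nhds.sub
      (tendsto_pow_atTop_nhds_zero_of_lt_one (by positivity) (by rw [div_lt_one hm0]; exact hm1))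
  rw [sub_zero] at hpow
  have h2 := (h.div hpow one_ne_zero).const_mul (((m : ℝ) - 1) / D)
  rw [div_one] at h2
  refine h2.congr' ?_
  filter_upwards [eventually_ge_atTop 1] with n hn
  have hp : (m : ℝ) ^ n ≠ 0 := by positivity
  have hp1 : (1 : ℝ) < (m : ℝ) ^ n := one_lt_pow₀ hm1 (by omega)
  have hmm : (m : ℝ) - 1 ≠ 0 := by
    have : (0 : ℝ) < m - 1 := by linarith
    exact this.ne'
  have hsum : ((∑ i ∈ Finset.range n, m ^ i : ℕ) : ℝ) = ((m : ℝ) ^ n - 1) / (m - 1) := by
    rw [← hgeo n]; field_simp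
  rw [hsum]
  have h3 : (m : ℝ) ^ n - 1 ≠ 0 := by
    have : (0 : ℝ) < (m : ℝ) ^ n - 1 := by linarith
    exact this.ne'
  have h4 : (1 : ℝ) - (1 / (m : ℝ)) ^ n = ((m : ℝ) ^ n - 1) / (m : ℝ) ^ n := by
    rw [div_pow, one_pow]; field_simp
  simp only [Pi.div_apply]
  rw [h4]
  field_simp

section

variable {Q A : Type} [Fintype A] (M : Mealy Q A) {S : ℝ}

lemma logb_eq (n : ℕ) : Real.log (M.levelCard n) = Real.logb 2 (M.levelCard n) * Real.log 2 := by
  unfold Real.logb
  have : Real.log 2 ≠ 0 := (Real.log_pos (by norm_num : (1 : ℝ) < 2)).ne'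
  field_simp

theorem hdim_eq (hm : 2 ≤ Fintype.card A)
    (h : Tendsto (fun n : ℕ => Real.logb 2 (M.levelCard n) / ((Fintype.card A : ℕ) : ℝ) ^ n)
      atTop (nhds S)) :
    M.hdim = ((Fintype.card A : ℝ) - 1) * Real.log 2 / Real.log (Nat.factorial (Fintype.card A))
      * S := by
  have hf : (1 : ℝ) < (Nat.factorial (Fintype.card A) : ℝ) := by
    have : 1 < Nat.factorial (Fintype.card A) :=
      lt_of_lt_of_le (by omega) (Nat.self_le_factorial _)
    exact_mod_cast this
  have hl2 : Real.log 2 ≠ 0 := (Real.log_pos (by norm_num : (1 : ℝ) < 2)).ne'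
  have hlf : Real.log (Nat.factorial (Fintype.card A)) ≠ 0 := (Real.log_pos hf).ne'
  have key := tendsto_ratio hm (c := fun n => Real.logb 2 (M.levelCard n))
    (D := Real.log (Nat.factorial (Fintype.card A)) / Real.log 2) (div_ne_zero hlf hl2) h
  have e : M.hdim = ((Fintype.card A : ℝ) - 1) /
      (Real.log (Nat.factorial (Fintype.card A)) / Real.log 2) * S := by
    unfold Mealy.hdim
    apply Tendsto.liminf_eq
    refine key.congr (fun n => ?_)
    rw [Real.log_pow, logb_eq]
    field_simp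
  rw [e]
  field_simp

theorem hdimSylow_eq (hm : 2 ≤ Fintype.card A)
    (h : Tendsto (fun n : ℕ => Real.logb 2 (M.levelCard n) / ((Fintype.card A : ℕ) : ℝ) ^ n)
      atTop (nhds S)) :
    M.hdimSylow 2 = ((Fintype.card A : ℝ) - 1) / (padicValNat 2 (Nat.factorial (Fintype.card A)) : ℝ)
      * S := by
  have hp : Fact (Nat.Prime 2) := ⟨Nat.prime_two⟩
  have hl2 : Real.log 2 ≠ 0 := (Real.log_pos (by norm_num : (1 : ℝ) < 2)).ne'
  have hv : (padicValNat 2 (Nat.factorial (Fintype.card A)) : ℝ) ≠ 0 := by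
    have h1 : 2 ∣ Nat.factorial (Fintype.card A) := Nat.dvd_factorial (by norm_num) hm
    have h2 : padicValNat 2 (Nat.factorial (Fintype.card A)) ≠ 0 := by
      have := (padicValNat_dvd_iff_le (p := 2) (Nat.factorial_ne_zero (Fintype.card A)) (n := 1)).1
        (by simpa using h1)
      omega
    exact_mod_cast h2
  have key := tendsto_ratio hm (c := fun n => Real.logb 2 (M.levelCard n))
    (D := (padicValNat 2 (Nat.factorial (Fintype.card A)) : ℝ)) hv h
  unfold Mealy.hdimSylow
  apply Tendsto.liminf_eq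
  refine key.congr (fun n => ?_)
  rw [Real.log_pow, logb_eq, padicValNat.pow]
  push_cast
  field_simp

end

end Pool.Agent.H82R2.Dim
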