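import Pool.Agent.H82R2.Dim.Base

/-! The automaton: 9 states over the alphabet `Z = ZMod 2 ⊕ ZMod 64` (66 letters). -/

set_option linter.all false

namespace Pool.Agent.H82R2.Dim

/-- the group of root labels -/
abbrev P : Type := Multiplicative (ZMod 2 × ZMod 64)

/-- the alphabet -/
abbrev Z : Type := ZMod 2 ⊕ ZMod 64

instance : MulAction P Z where
  smul p z := match z with
    | Sum.inl x => Sum.inl (p.toAdd.1 + x)
    | Sum.inr r => Sum.inr (p.toAdd.2 + r)
  one_smul z := by
    rcases z with x | r
    · exact congrArg Sum.inl (zero_add x)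
    · exact congrArg Sum.inr (zero_add r)
  mul_smul p q z := by
    rcases z with x | r
    · exact congrArg Sum.inl (add_assoc _ _ x)
    · exact congrArg Sum.inr (add_assoc _ _ r)

@[simp] lemma smul_inl (p : P) (x : ZMod 2) : p • (Sum.inl x : Z) = Sum.inl (p.toAdd.1 + x) := rfl
@[simp] lemma smul_inr (p : P) (r : ZMod 64) : p • (Sum.inr r : Z) = Sum.inr (p.toAdd.2 + r) := rfl

/-- the states -/
inductive Q : Type
  | e | s | a | b | c | l | f | d1 | d2
  deriving DecidableEq

instance : Fintype Q :=
  ⟨{Q.e, Q.s, Q.a, Q.b, Q.c, Q.l, Q.f, Q.d1, Q.d2}, by intro x; cases x <;> decide⟩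

open Q

/-- the seven generators, as a list -/
def gen : ℕ → Q
  | 0 => s
  | 1 => a
  | 2 => b
  | 3 => l
  | 4 => f
  | 5 => d1
  | 6 => d2
  | _ => e

/-- root labels of the states -/
def lab : Q → P
  | s => Multiplicative.ofAdd (1, 0)
  | c => Multiplicative.ofAdd (1, 0)
  | l => Multiplicative.ofAdd (0, 1)
  | _ => 1

/-- sections of the states -/
def nxt : Q → Z → Q
  | a, Sum.inl _ => b
  | b, Sum.inl x => if x = 0 then a else c
  | c, Sum.inl _ => b
  | f, Sum.inl x => if x = 0 then f else l
  | d1, Sum.inl x => if x = 0 then d1 else e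
  | d1, Sum.inr r => gen r.val
  | d2, Sum.inl x => if x = 0 then e else d2
  | d2, Sum.inr r => if r.val % 8 = 0 then gen (r.val / 8) else e
  | _, _ => e

/-- level `n` of the tree automorphism given by a state -/
def el (n : ℕ) (q : Q) : W P Z n := elW lab nxt n q

lemma el_c (n : ℕ) (q : Q) (z : Z) : Node.c (el (n + 1) q) z = el n (nxt q z) := rfl
lemma el_p (n : ℕ) (q : Q) : Node.p (el (n + 1) q) = lab q := rfl

lemma res_el (n : ℕ) (q : Q) : res P Z n (el (n + 1) q) = el n q := res_elW P Z lab nxt n q

lemma el_e (n : ℕ) : el n e = 1 := by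
  induction n with
  | zero => rfl
  | succ n ih =>
    apply Node.ext
    · funext z
      show el n (nxt e z) = 1
      rcases z with x | r <;> exact ih
    · rfl

lemma el_c_eq (n : ℕ) : el n c = el n s * el n a := by
  cases n with
  | zero => rfl
  | succ n =>
    apply Node.ext
    · funext z
      show el n (nxt c z) = el n (nxt s _) * el n (nxt a z)
      rcases z with x | r
      · show el n b = el n e * el n b
        rw [el_e, one_mul]
      · show el n e = el n e * el n e
        rw [el_e, one_mul]
    · rfl

/-- `σ` is rooted -/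
lemma el_s (n : ℕ) : el (n + 1) s = rt (lab s) := by
  apply Node.ext
  · funext z
    show el n (nxt s z) = 1
    rcases z with x | r <;> exact el_e n
  · rfl

lemma el_l (n : ℕ) : el (n + 1) l = rt (lab l) := by
  apply Node.ext
  · funext z
    show el n (nxt l z) = 1
    rcases z with x | r <;> exact el_e n
  · rfl

/-- the group at level `n` -/
def G (n : ℕ) : Subgroup (W P Z n) := Subgroup.closure (Set.range (el n))

lemma el_mem (n : ℕ) (q : Q) : el n q ∈ G n := Subgroup.subset_closure ⟨q, rfl⟩

end Pool.Agent.H82R2.Dim
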