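import Pool.Agent.H82R2.Dim.Gen

/-! Task H: order of the level quotients of the dihedral lamplighter group. -/

set_option linter.all false

namespace Pool.Agent.H82R2.Dim

open Q

/-- TASK H -/
def H (n : ℕ) : Subgroup (W P Z n) := Subgroup.closure {el n s, el n a, el n b}

namespace HO

/-- infinite binary sequences -/
abbrev V : Type := ℕ → ZMod 2

/-- the shift -/
def sh (v : V) : V := fun i => v (i + 1)

/-- the first unit vector -/
def e0 : V := fun i => if i = 0 then 1 else 0

/-- translations -/
def tr : (n : ℕ) → V → W P Z n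
  | 0, _ => PUnit.unit
  | n + 1, v => (⟨fun z => match z with
      | Sum.inl _ => tr n (sh v)
      | Sum.inr _ => 1, Multiplicative.ofAdd (v 0, 0)⟩ : Node P Z (W P Z n))

lemma Wext {n : ℕ} {g h : W P Z (n + 1)} (h1 : ∀ z, Node.c g z = Node.c h z)
    (h2 : Node.p g = Node.p h) : g = h := Node.ext (funext h1) h2

lemma Wmul_c {n : ℕ} (g h : W P Z (n + 1)) (z : Z) :
    Node.c (g * h) z = Node.c g (Node.p h • z) * Node.c h z := rfl
lemma Wmul_p {n : ℕ} (g h : W P Z (n + 1)) : Node.p (g * h) = Node.p g * Node.p h := rfl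
lemma Wone_c {n : ℕ} (z : Z) : Node.c (1 : W P Z (n + 1)) z = 1 := rfl
lemma Wone_p {n : ℕ} : Node.p (1 : W P Z (n + 1)) = 1 := rfl

lemma tr_cl (n : ℕ) (v : V) (x : ZMod 2) : Node.c (tr (n + 1) v) (Sum.inl x) = tr n (sh v) := rfl
lemma tr_cr (n : ℕ) (v : V) (r : ZMod 64) : Node.c (tr (n + 1) v) (Sum.inr r) = 1 := rfl
lemma tr_p (n : ℕ) (v : V) : Node.p (tr (n + 1) v) = Multiplicative.ofAdd (v 0, 0) := rfl

lemma tr_zero (n : ℕ) : tr n 0 = 1 := by
  induction n with
  | zero => rfl
  | succ n ih =>
    apply Wext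
    · intro z
      rcases z with x | r
      · exact ih
      · rfl
    · rfl

lemma tr_add (n : ℕ) (v w : V) : tr n (v + w) = tr n v * tr n w := by
  induction n generalizing v w with
  | zero => rfl
  | succ n ih =>
    apply Wext
    · intro z
      rcases z with x | r
      · exact ih (sh v) (sh w)
      · exact (one_mul (1 : W P Z n)).symm
    · show Multiplicative.ofAdd (v 0 + w 0, (0 : ZMod 64)) =
        Multiplicative.ofAdd (v 0, (0 : ZMod 64)) * Multiplicative.ofAdd (w 0, (0 : ZMod 64))
      rw [← ofAdd_add]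
      rfl

lemma tr_eq_one_iff (n : ℕ) (v : V) : tr n v = 1 ↔ ∀ i < n, v i = 0 := by
  induction n generalizing v with
  | zero => exact ⟨fun _ i hi => absurd hi (Nat.not_lt_zero i), fun _ => rfl⟩
  | succ n ih =>
    constructor
    · intro h i hi
      have h1 : tr n (sh v) = 1 := congrArg (fun g : W P Z (n + 1) => Node.c g (Sum.inl 0)) h
      have h2 : Node.p (tr (n + 1) v) = 1 := congrArg (fun g : W P Z (n + 1) => Node.p g) h
      cases i with
      | zero =>
        rw [tr_p] at h2
        exact congrArg (fun p : P => p.toAdd.1) h2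
      | succ i => exact (ih (sh v)).1 h1 i (by omega)
    · intro h
      apply Wext
      · intro z
        rcases z with x | r
        · exact (ih (sh v)).2 (fun i hi => h (i + 1) (by omega))
        · rfl
      · rw [tr_p, h 0 (by omega)]
        rfl

lemma add_self (v : V) : v + v = 0 := by
  funext i
  exact CharTwo.add_self_eq_zero (v i)

lemma tr_inj_iff (n : ℕ) (v w : V) : tr n v = tr n w ↔ ∀ i < n, v i = w i := by
  have h1 : tr n w * tr n w = 1 := by rw [← tr_add, add_self, tr_zero]
  have h2 : tr n v = tr n w ↔ tr n (v + w) = 1 := by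
    rw [tr_add]
    constructor
    · intro h; rw [h, h1]
    · intro h
      have : tr n v * tr n w = tr n w * tr n w := by rw [h, h1]
      exact mul_right_cancel this
  rw [h2, tr_eq_one_iff]
  constructor
  · intro h i hi
    have := h i hi
    exact CharTwo.add_eq_zero.1 this
  · intro h i hi
    exact CharTwo.add_eq_zero.2 (h i hi)

lemma el_s_tr (n : ℕ) : el n s = tr n e0 := by
  cases n with
  | zero => rfl
  | succ n =>
    rw [el_s]
    have h0 : sh e0 = 0 := by
      funext i
      unfold sh e0
      simp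
    apply Wext
    · intro z
      rcases z with x | r
      · show (1 : W P Z n) = tr n (sh e0)
        rw [h0, tr_zero]
      · rfl
    · rfl

/-- conjugation by `a` -/
def A (v : V) : V := fun j => v j + if j % 2 = 0 ∧ 2 ≤ j then v (j - 1) else 0
/-- conjugation by `b` -/
def B (v : V) : V := fun j => v j + if j % 2 = 1 then v (j - 1) else 0

lemma A_zero (v : V) : A v 0 = v 0 := by unfold A; simp
lemma B_zero (v : V) : B v 0 = v 0 := by unfold B; simp

lemma sh_A (v : V) : sh (A v) = B (sh v) := by
  funext i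
  unfold sh A B
  rcases Nat.even_or_odd' i with ⟨k, hk | hk⟩
  · rw [if_neg (by omega), if_neg (by omega)]
  · rw [if_pos (by omega), if_pos (by omega)]
    congr 2
    omega

lemma sh_B (v : V) : sh (B v) = A (sh v) + (fun i => if i = 0 then v 0 else 0) := by
  funext i
  show sh (B v) i = A (sh v) i + (if i = 0 then v 0 else 0)
  unfold sh A B
  rcases Nat.eq_zero_or_pos i with hi | hi
  · subst hi
    simp
  · rcases Nat.even_or_odd' i with ⟨k, hk | hk⟩
    · rw [if_pos (by omega), if_pos (by omega), if_neg (by omega), add_zero]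
      congr 2
      omega
    · rw [if_neg (by omega), if_neg (by omega), if_neg (by omega)]
      simp

/-- multiples of the first unit vector -/
def ee (x : ZMod 2) : V := fun i => if i = 0 then x else 0

lemma ee_zero : ee 0 = 0 := by funext i; unfold ee; simp
lemma ee_one : ee 1 = e0 := rfl
lemma ee_add (x y : ZMod 2) : ee (x + y) = ee x + ee y := by
  funext i
  show (if i = 0 then x + y else 0) = (if i = 0 then x else 0) + (if i = 0 then y else 0)
  split_ifs <;> simp
lemma A_ee (x : ZMod 2) : A (ee x) = ee x := by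
  funext i
  unfold A ee
  rcases Nat.eq_zero_or_pos i with hi | hi
  · subst hi; simp
  · by_cases h : i % 2 = 0 ∧ 2 ≤ i
    · rw [if_pos h, if_neg (by omega), if_neg (by omega), add_zero]
    · rw [if_neg h, add_zero]

lemma el_b_c (n : ℕ) (x : ZMod 2) : Node.c (el (n + 1) b) (Sum.inl x) = tr n (ee x) * el n a := by
  rw [el_c]
  have hx : x = 0 ∨ x = 1 := by
    revert x
    decide
  rcases hx with rfl | rfl
  · rw [ee_zero, tr_zero, one_mul]
    rfl
  · rw [ee_one, ← el_s_tr, ← el_c_eq]
    rfl

lemma el_b_r (n : ℕ) (r : ZMod 64) : Node.c (el (n + 1) b) (Sum.inr r) = 1 := el_e n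
lemma el_a_r (n : ℕ) (r : ZMod 64) : Node.c (el (n + 1) a) (Sum.inr r) = 1 := el_e n
lemma el_a_l (n : ℕ) (x : ZMod 2) : Node.c (el (n + 1) a) (Sum.inl x) = el n b := rfl
lemma el_a_p (n : ℕ) : Node.p (el (n + 1) a) = 1 := rfl
lemma el_b_p (n : ℕ) : Node.p (el (n + 1) b) = 1 := rfl

lemma ofAdd_smul_inl (x y : ZMod 2) :
    ((Multiplicative.ofAdd (x, (0 : ZMod 64)) : P) • (Sum.inl y : Z)) = Sum.inl (x + y) := rfl

lemma conj_ab (n : ℕ) : (∀ v, el n a * tr n v = tr n (A v) * el n a) ∧
    (∀ v, el n b * tr n v = tr n (B v) * el n b) := by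
  induction n with
  | zero => exact ⟨fun v => rfl, fun v => rfl⟩
  | succ n ih =>
    obtain ⟨iha, ihb⟩ := ih
    constructor
    · intro v
      apply Wext
      · intro z
        rw [Wmul_c, Wmul_c]
        rcases z with x | r
        · rw [tr_p, ofAdd_smul_inl, el_a_p, one_smul, tr_cl, tr_cl, el_a_l, el_a_l, sh_A, ihb]
        · rw [el_a_p, one_smul, tr_cr, el_a_r]
          show Node.c (el (n + 1) a) (Sum.inr _) * 1 = 1 * 1
          rw [el_a_r]
      · rw [Wmul_p, Wmul_p, tr_p, tr_p, el_a_p, A_zero, one_mul, mul_one]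
    · intro v
      apply Wext
      · intro z
        rw [Wmul_c, Wmul_c]
        rcases z with x | r
        · rw [tr_p, ofAdd_smul_inl, el_b_p, one_smul, tr_cl, tr_cl, el_b_c, el_b_c, sh_B]
          have h1 : (fun i => if i = 0 then v 0 else 0) = ee (v 0) := rfl
          rw [h1, mul_assoc, iha, ← mul_assoc, ← mul_assoc, ← tr_add, ← tr_add, ee_add]
          congr 2
          abel
        · rw [el_b_p, one_smul, tr_cr, el_b_r]
          show Node.c (el (n + 1) b) (Sum.inr _) * 1 = 1 * 1
          rw [el_b_r]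
      · rw [Wmul_p, Wmul_p, tr_p, tr_p, el_b_p, B_zero, one_mul, mul_one]

lemma sq_ab (n : ℕ) : el n a * el n a = 1 ∧ el n b * el n b = 1 := by
  induction n with
  | zero => exact ⟨rfl, rfl⟩
  | succ n ih =>
    obtain ⟨iha, ihb⟩ := ih
    constructor
    · apply Wext
      · intro z
        rw [Wmul_c, el_a_p, one_smul]
        rcases z with x | r
        · rw [el_a_l, ihb]
          rfl
        · rw [el_a_r, one_mul]
          rfl
      · rfl
    · apply Wext
      · intro z
        rw [Wmul_c, el_b_p, one_smul]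
        rcases z with x | r
        · rw [el_b_c]
          show tr n (ee x) * el n a * (tr n (ee x) * el n a) = 1
          rw [mul_assoc, ← mul_assoc (el n a), (conj_ab n).1, A_ee, mul_assoc, iha, mul_one,
            ← tr_add, add_self, tr_zero]
        · rw [el_b_r, one_mul]
          rfl
      · rfl

end HO

open HO

theorem el_a_sq (n : ℕ) : el n a * el n a = 1 := (sq_ab n).1
theorem el_b_sq (n : ℕ) : el n b * el n b = 1 := (sq_ab n).2
theorem el_s_sq (n : ℕ) : el n s * el n s = 1 := by
  rw [el_s_tr, ← tr_add, add_self, tr_zero]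
theorem el_s_comm_a (n : ℕ) : Commute (el n s) (el n a) := by
  show el n s * el n a = el n a * el n s
  rw [el_s_tr, (conj_ab n).1, ← ee_one, A_ee]

namespace HO

/-! ### linear algebra -/

lemma A_add (v w : V) : A (v + w) = A v + A w := by
  funext j
  show v j + w j + (if j % 2 = 0 ∧ 2 ≤ j then v (j - 1) + w (j - 1) else 0) =
    v j + (if j % 2 = 0 ∧ 2 ≤ j then v (j - 1) else 0) +
      (w j + (if j % 2 = 0 ∧ 2 ≤ j then w (j - 1) else 0))
  split_ifs <;> abel

lemma B_add (v w : V) : B (v + w) = B v + B w := by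
  funext j
  show v j + w j + (if j % 2 = 1 then v (j - 1) + w (j - 1) else 0) =
    v j + (if j % 2 = 1 then v (j - 1) else 0) + (w j + (if j % 2 = 1 then w (j - 1) else 0))
  split_ifs <;> abel

/-- conjugation by `b a` -/
def M : AddMonoid.End V where
  toFun v := B (A v)
  map_zero' := by
    have h := B_add (A 0) (A 0)
    rw [← A_add, add_zero] at h
    have := add_self (B (A 0))
    rw [← h] at this
    exact this
  map_add' v w := by
    show B (A (v + w)) = B (A v) + B (A w)
    rw [A_add, B_add]

/-- the nilpotent part -/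
def U : AddMonoid.End V := M + 1

lemma end_two (x : AddMonoid.End V) : x + x = 0 := by
  apply AddMonoidHom.ext
  intro v
  exact add_self (x v)

lemma M_eq : M = 1 + U := by
  unfold U
  rw [add_comm M 1, ← add_assoc, end_two, zero_add]

lemma M_pow (j : ℕ) : M ^ (2 ^ j) = 1 + U ^ (2 ^ j) := by
  induction j with
  | zero => rw [pow_zero, pow_one, pow_one, M_eq]
  | succ j ih =>
    have h1 : M ^ (2 ^ (j + 1)) = M ^ (2 ^ j) * M ^ (2 ^ j) := by
      rw [← pow_add]; congr 1; ring
    have h2 : U ^ (2 ^ (j + 1)) = U ^ (2 ^ j) * U ^ (2 ^ j) := by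
      rw [← pow_add]; congr 1; ring
    rw [h1, ih, h2, mul_add, mul_one, add_mul, one_mul]
    calc 1 + U ^ 2 ^ j + (U ^ 2 ^ j + U ^ 2 ^ j * U ^ 2 ^ j)
        = 1 + (U ^ 2 ^ j + U ^ 2 ^ j) + U ^ 2 ^ j * U ^ 2 ^ j := by abel
      _ = 1 + U ^ 2 ^ j * U ^ 2 ^ j := by rw [end_two, add_zero]

/-- geometric sum -/
def S (k : ℕ) : AddMonoid.End V := ∑ i ∈ Finset.range k, M ^ i

lemma S_succ' (k : ℕ) : S (k + 1) = 1 + M * S k := by
  unfold S
  rw [Finset.sum_range_succ', pow_zero, Finset.mul_sum, add_comm]
  congr 1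
  apply Finset.sum_congr rfl
  intro i _
  rw [pow_succ']

lemma S_add (k l : ℕ) : S (k + l) = S k + M ^ k * S l := by
  unfold S
  rw [Finset.sum_range_add, Finset.mul_sum]
  congr 1
  apply Finset.sum_congr rfl
  intro i _
  rw [pow_add]

lemma S_pow (j : ℕ) : S (2 ^ j) = U ^ (2 ^ j - 1) := by
  induction j with
  | zero =>
    unfold S
    simp
  | succ j ih =>
    have h1 : 2 ^ (j + 1) = 2 ^ j + 2 ^ j := by ring
    have h2 : 1 ≤ 2 ^ j := Nat.one_le_two_pow
    rw [h1, S_add, M_pow, ih, add_mul, one_mul, ← add_assoc, end_two, zero_add, ← pow_add]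
    congr 1
    omega

lemma U_apply (v : V) (j : ℕ) : U v j = (if 1 ≤ j then v (j - 1) else 0) +
    (if j % 2 = 1 ∧ 3 ≤ j then v (j - 2) else 0) := by
  show B (A v) j + v j = _
  unfold B A
  rcases Nat.eq_zero_or_pos j with hj | hj
  · subst hj
    simp
    exact CharTwo.add_self_eq_zero (v 0)
  · rcases Nat.even_or_odd' j with ⟨k, hk | hk⟩
    · rw [if_pos (by omega), if_neg (by omega), if_pos (by omega), if_neg (by omega), add_zero,
        add_zero]
      calc v j + v (j - 1) + v j = v (j - 1) + (v j + v j) := by abel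
        _ = v (j - 1) := by rw [CharTwo.add_self_eq_zero, add_zero]
    · have h1 : (if j % 2 = 0 ∧ 2 ≤ j then v (j - 1) else 0) = 0 := if_neg (by omega)
      have h2 : ∀ x : ZMod 2, (if j % 2 = 1 then x else 0) = x := fun x => if_pos (by omega)
      have h4 : (if 1 ≤ j then v (j - 1) else 0) = v (j - 1) := if_pos (by omega)
      rw [h1, h2, h4]
      by_cases h3 : 3 ≤ j
      · have h5 : (if (j - 1) % 2 = 0 ∧ 2 ≤ j - 1 then v (j - 1 - 1) else 0) = v (j - 2) := by
          rw [if_pos (by omega)]
          congr 1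
        have h6 : (if j % 2 = 1 ∧ 3 ≤ j then v (j - 2) else 0) = v (j - 2) := if_pos (by omega)
        rw [h5, h6]
        calc v j + 0 + (v (j - 1) + v (j - 2)) + v j = v (j - 1) + v (j - 2) + (v j + v j) := by abel
          _ = v (j - 1) + v (j - 2) := by rw [CharTwo.add_self_eq_zero, add_zero]
      · have h5 : (if (j - 1) % 2 = 0 ∧ 2 ≤ j - 1 then v (j - 1 - 1) else 0) = 0 :=
          if_neg (by omega)
        have h6 : (if j % 2 = 1 ∧ 3 ≤ j then v (j - 2) else 0) = 0 := if_neg (by omega)
        rw [h5, h6]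
        calc v j + 0 + (v (j - 1) + 0) + v j = v (j - 1) + 0 + (v j + v j) := by abel
          _ = v (j - 1) + 0 := by rw [CharTwo.add_self_eq_zero, add_zero]

lemma U_pow_lead (w : V) (hw : w 0 = 1) (k : ℕ) :
    (∀ i < k, (U ^ k) w i = 0) ∧ (U ^ k) w k = 1 := by
  induction k with
  | zero => exact ⟨fun i hi => absurd hi (Nat.not_lt_zero i), hw⟩
  | succ k ih =>
    have h1 : (U ^ (k + 1)) w = U ((U ^ k) w) := by
      rw [pow_succ']
      rfl
    rw [h1]
    constructor
    · intro i hi
      rw [U_apply]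
      have e1 : (if 1 ≤ i then (U ^ k) w (i - 1) else 0) = 0 := by
        split_ifs with h
        · exact ih.1 _ (by omega)
        · rfl
      have e2 : (if i % 2 = 1 ∧ 3 ≤ i then (U ^ k) w (i - 2) else 0) = 0 := by
        split_ifs with h
        · exact ih.1 _ (by omega)
        · rfl
      rw [e1, e2, add_zero]
    · rw [U_apply, if_pos (by omega)]
      have e2 : (if (k + 1) % 2 = 1 ∧ 3 ≤ k + 1 then (U ^ k) w (k + 1 - 2) else 0) = 0 := by
        split_ifs with h
        · exact ih.1 _ (by omega)
        · rfl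
      rw [e2, add_zero, Nat.add_sub_cancel]
      exact ih.2

/-! ### powers of `a b` -/

lemma pow_node {n : ℕ} (g : W P Z (n + 1)) (hg : Node.p g = 1) (k : ℕ) :
    Node.p (g ^ k) = 1 ∧ ∀ z, Node.c (g ^ k) z = (Node.c g z) ^ k := by
  induction k with
  | zero =>
    rw [pow_zero]
    exact ⟨rfl, fun z => by rw [pow_zero]; rfl⟩
  | succ k ih =>
    rw [pow_succ]
    constructor
    · rw [Wmul_p, ih.1, hg, one_mul]
    · intro z
      rw [Wmul_c, hg, one_smul, ih.2, pow_succ]

lemma trh_pow (n : ℕ) (w : V) (k : ℕ) :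
    (tr n w * (el n b * el n a)) ^ k = tr n (S k w) * (el n b * el n a) ^ k := by
  induction k with
  | zero =>
    rw [pow_zero, pow_zero, mul_one]
    have : S 0 w = 0 := by unfold S; simp
    rw [this, tr_zero]
  | succ k ih =>
    have hconj : ∀ v, (el n b * el n a) * tr n v = tr n (M v) * (el n b * el n a) := by
      intro v
      rw [mul_assoc, (conj_ab n).1, ← mul_assoc, (conj_ab n).2, mul_assoc]
      rfl
    rw [pow_succ', ih, mul_assoc, ← mul_assoc (el n b * el n a), hconj, mul_assoc, ← pow_succ',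
      ← mul_assoc, ← tr_add]
    congr 2
    rw [S_succ']
    rfl

lemma gpow (n j : ℕ) : (el n a * el n b) ^ (2 ^ j) = 1 ↔ n ≤ 2 ^ j := by
  induction n with
  | zero => exact ⟨fun _ => Nat.zero_le _, fun _ => rfl⟩
  | succ n ih =>
    have h2 : 1 ≤ 2 ^ j := Nat.one_le_two_pow
    have hp : Node.p (el (n + 1) a * el (n + 1) b) = 1 := rfl
    have hpw := pow_node (el (n + 1) a * el (n + 1) b) hp (2 ^ j)
    have hc : ∀ x : ZMod 2, Node.c (el (n + 1) a * el (n + 1) b) (Sum.inl x) =
        tr n (B (ee x)) * (el n b * el n a) := by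
      intro x
      rw [Wmul_c, el_b_p, one_smul, el_a_l, el_b_c, ← mul_assoc, (conj_ab n).2, mul_assoc]
    have hcr : ∀ r : ZMod 64, Node.c (el (n + 1) a * el (n + 1) b) (Sum.inr r) = 1 := by
      intro r
      rw [Wmul_c, el_b_p, one_smul, el_a_r, el_b_r, one_mul]
    have hB0 : B (ee 0) = 0 := by
      rw [ee_zero]
      have h := B_add 0 0
      rw [add_zero] at h
      have h3 := add_self (B 0)
      rw [← h] at h3
      exact h3
    have hconj : (el n b * el n a) ^ (2 ^ j) = 1 ↔ (el n a * el n b) ^ (2 ^ j) = 1 := by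
      have h3 : el n b * el n a = (el n a)⁻¹ * (el n a * el n b) * (el n a)⁻¹⁻¹ := by
        rw [inv_inv, ← mul_assoc, inv_mul_cancel, one_mul]
      rw [h3, conj_pow]
      constructor
      · intro h
        have h4 : (el n a)⁻¹ * (el n a * el n b) ^ 2 ^ j = (el n a)⁻¹ := by
          rw [← mul_inv_cancel_right ((el n a)⁻¹ * (el n a * el n b) ^ 2 ^ j) (el n a)⁻¹⁻¹, h,
            one_mul, inv_inv]
        exact mul_eq_left.1 h4
      · intro h
        rw [h, mul_one, mul_inv_cancel]
    have key : (el (n + 1) a * el (n + 1) b) ^ (2 ^ j) = 1 ↔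
        (el n b * el n a) ^ (2 ^ j) = 1 ∧ tr n (S (2 ^ j) (B e0)) = 1 := by
      constructor
      · intro h
        have h3 : ∀ x : ZMod 2, (tr n (B (ee x)) * (el n b * el n a)) ^ (2 ^ j) = 1 := by
          intro x
          rw [← hc, ← hpw.2, h]
          rfl
        have h4 := h3 0
        rw [hB0, tr_zero, one_mul] at h4
        have h5 := h3 1
        rw [trh_pow, h4, mul_one] at h5
        exact ⟨h4, h5⟩
      · rintro ⟨h3, h4⟩
        apply Wext
        · intro z
          rw [hpw.2]
          rcases z with x | r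
          · rw [hc, trh_pow, h3, mul_one]
            have hx : x = 0 ∨ x = 1 := by
              revert x
              decide
            rcases hx with rfl | rfl
            · rw [hB0, map_zero, tr_zero]
              rfl
            · rw [ee_one, h4]
              rfl
          · rw [hcr, one_pow]
            rfl
        · exact hpw.1
    have hw : B e0 0 = 1 := by rw [B_zero]; rfl
    have hlead := U_pow_lead (B e0) hw (2 ^ j - 1)
    rw [key, hconj, ih, S_pow, tr_eq_one_iff]
    constructor
    · rintro ⟨h3, h4⟩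
      by_contra h5
      have h6 := h4 (2 ^ j - 1) (by omega)
      rw [hlead.2] at h6
      exact one_ne_zero h6
    · intro h3
      exact ⟨by omega, fun i hi => hlead.1 i (by omega)⟩

lemma order_g (n : ℕ) (hn : 2 ≤ n) : orderOf (el n a * el n b) = 2 ^ Nat.clog 2 n := by
  have h1 := Nat.pow_pred_clog_lt_self (b := 2) (by norm_num) (x := n) (by omega)
  have h2 := Nat.le_pow_clog (b := 2) (by norm_num) n
  have h3 : 0 < Nat.clog 2 n := Nat.clog_pos (by norm_num) hn
  obtain ⟨c, hc⟩ : ∃ c, Nat.clog 2 n = c + 1 := ⟨Nat.clog 2 n - 1, by omega⟩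
  rw [hc] at h1 h2 ⊢
  rw [Nat.pred_succ] at h1
  haveI : Fact (Nat.Prime 2) := ⟨Nat.prime_two⟩
  apply orderOf_eq_prime_pow
  · rw [gpow]
    omega
  · rw [gpow]
    exact h2

/-! ### orders of subgroups -/

lemma card_sup {G : Type} [Group G] (N K : Subgroup G) (hle : K ≤ Subgroup.normalizer (N : Set G))
    (hd : Disjoint N K) : Nat.card ↥(N ⊔ K) = Nat.card N * Nat.card K := by
  have h1 : ((N ⊔ K : Subgroup G) : Set G) = Set.range (fun g : N × K => (g.1 * g.2 : G)) := by
    rw [Subgroup.coe_mul_of_right_le_normalizer_left N K hle]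
    ext x
    rw [Set.mem_mul]
    constructor
    · rintro ⟨y, hy, z, hz, rfl⟩
      exact ⟨(⟨y, hy⟩, ⟨z, hz⟩), rfl⟩
    · rintro ⟨⟨y, z⟩, rfl⟩
      exact ⟨y, y.2, z, z.2, rfl⟩
  have h2 : Nat.card ↥(N ⊔ K) = Nat.card (Set.range (fun g : N × K => (g.1 * g.2 : G))) := by
    rw [← h1]
    rfl
  rw [h2, Nat.card_range_of_injective (Subgroup.mul_injective_of_disjoint hd), Nat.card_prod]

lemma mem_norm {G : Type} [Group G] (N : Subgroup G) (x : G) (hx : x * x = 1)
    (h : ∀ y ∈ N, x * y * x⁻¹ ∈ N) : x ∈ Subgroup.normalizer (N : Set G) := by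
  rw [Subgroup.mem_normalizer_iff]
  intro y
  constructor
  · exact h y
  · intro hy
    have h1 := h _ hy
    have hxi : x⁻¹ = x := by
      rw [inv_eq_iff_mul_eq_one]; exact hx
    rw [hxi] at h1
    have h2 : x * (x * y * x) * x = y := by
      calc x * (x * y * x) * x = (x * x) * y * (x * x) := by group
        _ = y := by rw [hx, one_mul, mul_one]
    rw [h2] at h1
    exact h1

/-- the translations -/
def TT (n : ℕ) : Subgroup (W P Z n) where
  carrier := Set.range (tr n)
  mul_mem' := by
    rintro _ _ ⟨v, rfl⟩ ⟨w, rfl⟩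
    exact ⟨v + w, tr_add n v w⟩
  one_mem' := ⟨0, tr_zero n⟩
  inv_mem' := by
    rintro _ ⟨v, rfl⟩
    refine ⟨v, ?_⟩
    rw [eq_comm, inv_eq_iff_mul_eq_one, ← tr_add, add_self, tr_zero]

lemma card_TT (n : ℕ) : Nat.card (TT n) = 2 ^ n := by
  let f : (Fin n → ZMod 2) → W P Z n :=
    fun x => tr n (fun i => if h : i < n then x ⟨i, h⟩ else 0)
  have hf : Function.Injective f := by
    intro x y h
    funext i
    have := (tr_inj_iff n _ _).1 h i.1 i.2
    simpa using this
  have hr : Set.range (tr n) = Set.range f := by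
    ext g
    constructor
    · rintro ⟨v, rfl⟩
      refine ⟨fun i => v i.1, ?_⟩
      apply (tr_inj_iff n _ _).2
      intro i hi
      simp [hi]
    · rintro ⟨x, rfl⟩
      exact ⟨_, rfl⟩
  have h1 : Nat.card (TT n) = Nat.card (Set.range f) := by
    rw [← hr]
    rfl
  rw [h1, Nat.card_range_of_injective hf]
  simp

/-- the elements fixing the zero path -/
def ZF : (n : ℕ) → Subgroup (W P Z n)
  | 0 => ⊤
  | n + 1 =>
    { carrier := {g | (Multiplicative.toAdd (Node.p g)).1 = 0 ∧ Node.c g (Sum.inl 0) ∈ ZF n}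
      mul_mem' := by
        rintro g h ⟨h1, h2⟩ ⟨h3, h4⟩
        refine ⟨?_, ?_⟩
        · rw [Wmul_p]
          show (Multiplicative.toAdd (Node.p g)).1 + (Multiplicative.toAdd (Node.p h)).1 = 0
          rw [h1, h3, add_zero]
        · rw [Wmul_c]
          have : Node.p h • (Sum.inl 0 : Z) = Sum.inl 0 := by
            rw [smul_inl, h3, add_zero]
          rw [this]
          exact (ZF n).mul_mem h2 h4
      one_mem' := ⟨rfl, (ZF n).one_mem⟩
      inv_mem' := by
        rintro g ⟨h1, h2⟩
        refine ⟨?_, ?_⟩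
        · show -(Multiplicative.toAdd (Node.p g)).1 = 0
          rw [h1, neg_zero]
        · show (Node.c g ((Node.p g)⁻¹ • (Sum.inl 0 : Z)))⁻¹ ∈ ZF n
          have : (Node.p g)⁻¹ • (Sum.inl 0 : Z) = Sum.inl 0 := by
            rw [inv_smul_eq_iff, smul_inl, h1, add_zero]
          rw [this]
          exact (ZF n).inv_mem h2 }

lemma ab_ZF (n : ℕ) : el n a ∈ ZF n ∧ el n b ∈ ZF n := by
  induction n with
  | zero => exact ⟨Subgroup.mem_top _, Subgroup.mem_top _⟩
  | succ n ih =>
    refine ⟨⟨rfl, ih.2⟩, ⟨rfl, ?_⟩⟩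
    exact ih.1

lemma tr_ZF (n : ℕ) (v : V) (h : tr n v ∈ ZF n) : tr n v = 1 := by
  induction n generalizing v with
  | zero => rfl
  | succ n ih =>
    obtain ⟨h1, h2⟩ := h
    apply Wext
    · intro z
      rcases z with x | r
      · exact ih (sh v) h2
      · rfl
    · rw [tr_p] at h1 ⊢
      have h3 : v 0 = 0 := h1
      rw [h3]
      rfl

end HO

open HO

theorem card_H (n : ℕ) (hn : 3 ≤ n) : Nat.card (H n) = 2 ^ (n + 1 + Nat.clog 2 n) := by
  have haa := el_a_sq n
  have hbb := el_b_sq n
  have hai : (el n a)⁻¹ = el n a := by rw [inv_eq_iff_mul_eq_one]; exact haa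
  have hbi : (el n b)⁻¹ = el n b := by rw [inv_eq_iff_mul_eq_one]; exact hbb
  set g : W P Z n := el n a * el n b with hg
  have hord : orderOf g = 2 ^ Nat.clog 2 n := order_g n (by omega)
  have hclog : 2 ≤ Nat.clog 2 n := by
    have : Nat.clog 2 3 ≤ Nat.clog 2 n := Nat.clog_mono_right 2 hn
    have h3 : Nat.clog 2 3 = 2 := by
      rw [Nat.clog_of_two_le (by norm_num) (by norm_num)]
      norm_num
    omega
  have hg2 : g ^ 2 ≠ 1 := by
    intro h
    have h1 := orderOf_dvd_of_pow_eq_one h
    rw [hord] at h1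
    have h2 := Nat.le_of_dvd (by norm_num) h1
    have h3 : 2 ^ 2 ≤ 2 ^ Nat.clog 2 n := Nat.pow_le_pow_right (by norm_num) hclog
    omega
  -- conjugation of g by a
  have hag : el n a * g * (el n a)⁻¹ = g⁻¹ := by
    rw [hg, mul_inv_rev, hai, hbi, ← mul_assoc, haa, one_mul]
  have hane : el n a ∉ Subgroup.zpowers g := by
    intro h
    rw [Subgroup.mem_zpowers_iff] at h
    obtain ⟨k, hk⟩ := h
    have h1 : el n a * g * (el n a)⁻¹ = g := by
      rw [← hk]
      group
    rw [hag] at h1
    apply hg2
    rw [pow_two]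
    nth_rewrite 1 [← h1]
    exact inv_mul_cancel g
  have ha1 : el n a ≠ 1 := by
    intro h
    exact hane (by rw [h]; exact Subgroup.one_mem _)
  have horda : orderOf (el n a) = 2 := by
    haveI : Fact (Nat.Prime 2) := ⟨Nat.prime_two⟩
    apply orderOf_eq_prime
    · rw [pow_two, haa]
    · exact ha1
  -- the group D
  set D : Subgroup (W P Z n) := Subgroup.zpowers g ⊔ Subgroup.zpowers (el n a) with hD
  have hcD : Nat.card D = 2 ^ Nat.clog 2 n * 2 := by
    rw [hD, card_sup, Nat.card_zpowers, Nat.card_zpowers, hord, horda]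
    · rw [Subgroup.zpowers_le]
      apply mem_norm _ _ haa
      intro y hy
      rw [Subgroup.mem_zpowers_iff] at hy ⊢
      obtain ⟨k, rfl⟩ := hy
      refine ⟨-k, ?_⟩
      rw [← conj_zpow, hag, inv_zpow, zpow_neg]
    · rw [Subgroup.disjoint_def]
      intro x hx hxa
      rw [Subgroup.mem_zpowers_iff] at hxa
      obtain ⟨k, rfl⟩ := hxa
      rcases Int.even_or_odd' k with ⟨l, hl | hl⟩
      · rw [hl, zpow_mul]
        have : (el n a) ^ (2 : ℤ) = 1 := by
          rw [zpow_ofNat, pow_two, haa]
        rw [this, one_zpow]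
      · exfalso
        apply hane
        have : (el n a) ^ k = el n a := by
          rw [hl, zpow_add, zpow_mul, zpow_one]
          have : (el n a) ^ (2 : ℤ) = 1 := by
            rw [zpow_ofNat, pow_two, haa]
          rw [this, one_zpow, one_mul]
        rw [this] at hx
        exact hx
  have haD : el n a ∈ D := Subgroup.mem_sup_right (Subgroup.mem_zpowers _)
  have hgD : g ∈ D := Subgroup.mem_sup_left (Subgroup.mem_zpowers _)
  have hbg : el n b = (el n a)⁻¹ * g := by rw [hg, ← mul_assoc, inv_mul_cancel, one_mul]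
  have hbD : el n b ∈ D := by
    rw [hbg]
    exact D.mul_mem (D.inv_mem haD) hgD
  -- H = T D
  have hHa : el n a ∈ H n := Subgroup.subset_closure (by simp)
  have hHb : el n b ∈ H n := Subgroup.subset_closure (by simp)
  have hHs : el n s ∈ H n := Subgroup.subset_closure (by simp)
  have hA : ∀ v, tr n v ∈ H n → tr n (A v) ∈ H n := by
    intro v hv
    have h1 : tr n (A v) = el n a * tr n v * (el n a)⁻¹ := by
      rw [(conj_ab n).1, mul_assoc, mul_inv_cancel, mul_one]
    rw [h1]
    exact (H n).mul_mem ((H n).mul_mem hHa hv) ((H n).inv_mem hHa)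
  have hB : ∀ v, tr n v ∈ H n → tr n (B v) ∈ H n := by
    intro v hv
    have h1 : tr n (B v) = el n b * tr n v * (el n b)⁻¹ := by
      rw [(conj_ab n).2, mul_assoc, mul_inv_cancel, mul_one]
    rw [h1]
    exact (H n).mul_mem ((H n).mul_mem hHb hv) ((H n).inv_mem hHb)
  have hunit : ∀ i : ℕ, tr n (fun j => if j = i then 1 else 0) ∈ H n := by
    intro i
    induction i with
    | zero =>
      have h1 : el n s = tr n (fun j => if j = 0 then 1 else 0) := el_s_tr n
      rw [← h1]
      exact hHs
    | succ i ih =>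
      rcases Nat.even_or_odd' i with ⟨k, hk | hk⟩
      · have h1 : (fun j => if j = i + 1 then (1 : ZMod 2) else 0) =
            (fun j => if j = i then (1 : ZMod 2) else 0) +
              B (fun j => if j = i then (1 : ZMod 2) else 0) := by
          funext j
          show (if j = i + 1 then (1 : ZMod 2) else 0) = (if j = i then (1 : ZMod 2) else 0) +
            ((if j = i then (1 : ZMod 2) else 0) +
              (if j % 2 = 1 then (if j - 1 = i then (1 : ZMod 2) else 0) else 0))
          rw [← add_assoc, CharTwo.add_self_eq_zero, zero_add]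
          by_cases hj : j = i + 1
          · rw [if_pos hj, if_pos (by omega), if_pos (by omega)]
          · rw [if_neg hj]
            split_ifs with h2 h3
            · omega
            · rfl
            · rfl
        rw [h1, tr_add]
        exact (H n).mul_mem ih (hB _ ih)
      · have h1 : (fun j => if j = i + 1 then (1 : ZMod 2) else 0) =
            (fun j => if j = i then (1 : ZMod 2) else 0) +
              A (fun j => if j = i then (1 : ZMod 2) else 0) := by
          funext j
          show (if j = i + 1 then (1 : ZMod 2) else 0) = (if j = i then (1 : ZMod 2) else 0) +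
            ((if j = i then (1 : ZMod 2) else 0) +
              (if j % 2 = 0 ∧ 2 ≤ j then (if j - 1 = i then (1 : ZMod 2) else 0) else 0))
          rw [← add_assoc, CharTwo.add_self_eq_zero, zero_add]
          by_cases hj : j = i + 1
          · rw [if_pos hj, if_pos (by omega), if_pos (by omega)]
          · rw [if_neg hj]
            split_ifs with h2 h3
            · omega
            · rfl
            · rfl
        rw [h1, tr_add]
        exact (H n).mul_mem ih (hA _ ih)
  have htrunc : ∀ (v : V) (m : ℕ), tr n (fun j => if j < m then v j else 0) ∈ H n := by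
    intro v m
    induction m with
    | zero =>
      have h1 : (fun j => if j < 0 then v j else 0) = (0 : V) := by
        funext j
        simp
      rw [h1, tr_zero]
      exact (H n).one_mem
    | succ m ih =>
      have hx : v m = 0 ∨ v m = 1 := by
        generalize v m = x
        revert x
        decide
      rcases hx with hx | hx
      · have h1 : (fun j => if j < m + 1 then v j else 0) = (fun j => if j < m then v j else 0) := by
          funext j
          by_cases hj : j = m
          · subst hj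
            simp [hx]
          · by_cases hj2 : j < m
            · rw [if_pos hj2, if_pos (by omega)]
            · rw [if_neg hj2, if_neg (by omega)]
        rw [h1]
        exact ih
      · have h1 : (fun j => if j < m + 1 then v j else 0) =
            (fun j => if j < m then v j else 0) + (fun j => if j = m then 1 else 0) := by
          funext j
          show (if j < m + 1 then v j else 0) = (if j < m then v j else 0) +
            (if j = m then 1 else 0)
          by_cases hj : j = m
          · subst hj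
            simp [hx]
          · by_cases hj2 : j < m
            · rw [if_pos hj2, if_pos (by omega), if_neg hj, add_zero]
            · rw [if_neg hj2, if_neg (by omega), if_neg hj, add_zero]
        rw [h1, tr_add]
        exact (H n).mul_mem ih (hunit m)
  have hTH : TT n ≤ H n := by
    rintro _ ⟨v, rfl⟩
    have h1 : tr n v = tr n (fun j => if j < n then v j else 0) := by
      apply (tr_inj_iff n _ _).2
      intro i hi
      simp [hi]
    rw [h1]
    exact htrunc v n
  have hDH : D ≤ H n := by
    rw [hD, sup_le_iff, Subgroup.zpowers_le, Subgroup.zpowers_le]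
    exact ⟨(H n).mul_mem hHa hHb, hHa⟩
  have hH : H n = TT n ⊔ D := by
    apply le_antisymm
    · unfold H
      rw [Subgroup.closure_le]
      intro x hx
      rcases hx with rfl | rfl | rfl
      · exact Subgroup.mem_sup_left ⟨e0, (el_s_tr n).symm⟩
      · exact Subgroup.mem_sup_right haD
      · exact Subgroup.mem_sup_right hbD
    · exact sup_le hTH hDH
  have hnorm : D ≤ Subgroup.normalizer (TT n : Set (W P Z n)) := by
    have h1 : el n a ∈ Subgroup.normalizer (TT n : Set (W P Z n)) := by
      apply mem_norm _ _ haa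
      rintro _ ⟨v, rfl⟩
      refine ⟨A v, ?_⟩
      rw [(conj_ab n).1, mul_assoc, mul_inv_cancel, mul_one]
    have h2 : el n b ∈ Subgroup.normalizer (TT n : Set (W P Z n)) := by
      apply mem_norm _ _ hbb
      rintro _ ⟨v, rfl⟩
      refine ⟨B v, ?_⟩
      rw [(conj_ab n).2, mul_assoc, mul_inv_cancel, mul_one]
    rw [hD, sup_le_iff, Subgroup.zpowers_le, Subgroup.zpowers_le]
    exact ⟨Subgroup.mul_mem _ h1 h2, h1⟩
  have hdisj : Disjoint (TT n) D := by
    have hZ : D ≤ ZF n := by
      rw [hD, sup_le_iff, Subgroup.zpowers_le, Subgroup.zpowers_le]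
      exact ⟨(ZF n).mul_mem (ab_ZF n).1 (ab_ZF n).2, (ab_ZF n).1⟩
    rw [Subgroup.disjoint_def]
    rintro _ ⟨v, rfl⟩ h
    exact tr_ZF n v (hZ h)
  rw [hH, card_sup _ _ hnorm hdisj, card_TT, hcD, pow_add, pow_add]
  ring

end Pool.Agent.H82R2.Dim
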