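import Mathlib

/-! Task IRR of helper82 (by helper834): irrationality of the limit. -/

set_option linter.all false

namespace Pool.Agent.H82R2.Dim

open Filter

namespace Irr

lemma clog_eq {j m : ℕ} (h1 : 2 ^ j < m) (h2 : m ≤ 2 ^ (j + 1)) : Nat.clog 2 m = j + 1 := by
  have a : Nat.clog 2 m ≤ j + 1 := Nat.clog_le_of_le_pow h2
  have b : ¬ Nat.clog 2 m ≤ j := by
    intro hc
    have h3 : m ≤ 2 ^ Nat.clog 2 m := Nat.le_pow_clog (by norm_num) m
    have h4 : 2 ^ Nat.clog 2 m ≤ 2 ^ j := Nat.pow_le_pow_right (by norm_num) hc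
    omega
  omega

lemma clog_succ_le (n : ℕ) : Nat.clog 2 (n + 1) ≤ Nat.clog 2 n + 1 := by
  apply Nat.clog_le_of_le_pow
  have h3 : n ≤ 2 ^ Nat.clog 2 n := Nat.le_pow_clog (by norm_num) n
  have h4 : 1 ≤ 2 ^ Nat.clog 2 n := Nat.one_le_two_pow
  rw [pow_succ]
  omega

lemma clog_mono (n : ℕ) : Nat.clog 2 n ≤ Nat.clog 2 (n + 1) :=
  Nat.clog_mono_right 2 (Nat.le_succ n)

lemma clog_le (n : ℕ) : Nat.clog 2 n ≤ n := by
  apply Nat.clog_le_of_le_pow
  exact (Nat.lt_two_pow_self).le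

end Irr

open Irr in
/-- TASK IRR -/
theorem irr (ν : ℕ → ℕ) (C : ℤ) (n₀ : ℕ)
    (h : ∀ n, n₀ ≤ n → (ν (n + 1) : ℤ) = 66 * ν n + 64 * (n + 1 + Nat.clog 2 n) + C) :
    ∃ S : ℝ, Irrational S ∧ Filter.Tendsto
      (fun n : ℕ => ((ν n + (n + 1 + Nat.clog 2 n) : ℕ) : ℝ) / 66 ^ n) Filter.atTop (nhds S) := by
  set μ : ℕ → ℤ := fun n => 4225 * ν n + 4160 * (n + 1) + 64 + 65 * C + 4160 * Nat.clog 2 n
    with hμ
  have hrec : ∀ n, n₀ ≤ n →
      μ (n + 1) = 66 * μ n + 4160 * ((Nat.clog 2 (n + 1) : ℤ) - Nat.clog 2 n) := by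
    intro n hn
    have := h n hn
    simp only [hμ]
    rw [this]
    push_cast
    ring
  set a : ℕ → ℝ := fun n => (μ n : ℝ) / 66 ^ n with ha
  have hpos : ∀ n : ℕ, (0 : ℝ) < 66 ^ n := fun n => by positivity
  have harec : ∀ n, n₀ ≤ n →
      a (n + 1) = a n + 4160 * ((Nat.clog 2 (n + 1) : ℝ) - Nat.clog 2 n) / 66 ^ (n + 1) := by
    intro n hn
    have h1 : (μ (n + 1) : ℝ) = 66 * μ n + 4160 * ((Nat.clog 2 (n + 1) : ℝ) - Nat.clog 2 n) := by
      exact_mod_cast hrec n hn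
    simp only [ha]
    rw [h1, pow_succ]
    have := hpos n
    field_simp
  have hd0 : ∀ n, (0 : ℝ) ≤ (Nat.clog 2 (n + 1) : ℝ) - Nat.clog 2 n := by
    intro n
    have := clog_mono n
    have : (Nat.clog 2 n : ℝ) ≤ Nat.clog 2 (n + 1) := by exact_mod_cast this
    linarith
  have hd1 : ∀ n, (Nat.clog 2 (n + 1) : ℝ) - Nat.clog 2 n ≤ 1 := by
    intro n
    have := clog_succ_le n
    have : (Nat.clog 2 (n + 1) : ℝ) ≤ Nat.clog 2 n + 1 := by exact_mod_cast this
    linarith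
  set b : ℕ → ℝ := fun n => a n + 64 / 66 ^ n with hb
  have hamono : ∀ n, n₀ ≤ n → a n ≤ a (n + 1) := by
    intro n hn
    rw [harec n hn]
    have : 0 ≤ 4160 * ((Nat.clog 2 (n + 1) : ℝ) - Nat.clog 2 n) / 66 ^ (n + 1) :=
      div_nonneg (mul_nonneg (by norm_num) (hd0 n)) (hpos _).le
    linarith
  have hbanti : ∀ n, n₀ ≤ n → b (n + 1) ≤ b n := by
    intro n hn
    simp only [hb]
    rw [harec n hn]
    have h1 : 4160 * ((Nat.clog 2 (n + 1) : ℝ) - Nat.clog 2 n) / 66 ^ (n + 1) ≤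
        4160 / 66 ^ (n + 1) := by
      apply div_le_div_of_nonneg_right _ (hpos _).le
      have := hd1 n
      linarith
    have h2 : (4160 : ℝ) / 66 ^ (n + 1) + 64 / 66 ^ (n + 1) = 64 / 66 ^ n := by
      rw [pow_succ]
      have := hpos n
      field_simp
      norm_num
    linarith
  have hmonoA : Monotone (fun k => a (k + n₀)) :=
    monotone_nat_of_le_succ fun k => by
      have := hamono (k + n₀) (Nat.le_add_left _ _)
      rw [show k + 1 + n₀ = k + n₀ + 1 by ring]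
      exact this
  have hantiB : Antitone (fun k => b (k + n₀)) :=
    antitone_nat_of_succ_le fun k => by
      have := hbanti (k + n₀) (Nat.le_add_left _ _)
      rw [show k + 1 + n₀ = k + n₀ + 1 by ring]
      exact this
  have hab : ∀ n, a n ≤ b n := by
    intro n
    have : (0 : ℝ) ≤ 64 / 66 ^ n := by positivity
    simp only [hb]
    linarith
  have hAB : ∀ k l, a (k + n₀) ≤ b (l + n₀) := by
    intro k l
    calc a (k + n₀) ≤ a (max k l + n₀) := hmonoA (le_max_left k l)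
      _ ≤ b (max k l + n₀) := hab _
      _ ≤ b (l + n₀) := hantiB (le_max_right k l)
  have hbdd : BddAbove (Set.range fun k => a (k + n₀)) := ⟨b (0 + n₀), by
    rintro x ⟨k, rfl⟩
    exact hAB k 0⟩
  set S := ⨆ k, a (k + n₀) with hS
  have hlim : Tendsto (fun k => a (k + n₀)) atTop (nhds S) := tendsto_atTop_ciSup hmonoA hbdd
  have hlim' : Tendsto a atTop (nhds S) := (tendsto_add_atTop_iff_nat n₀).1 hlim
  have hSa : ∀ n, n₀ ≤ n → a n ≤ S := by
    intro n hn
    have := le_ciSup hbdd (n - n₀)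
    simp only [Nat.sub_add_cancel hn] at this
    exact this
  have hSb : ∀ n, n₀ ≤ n → S ≤ b n := by
    intro n hn
    have : S ≤ b (n - n₀ + n₀) := ciSup_le fun k => hAB k (n - n₀)
    rwa [Nat.sub_add_cancel hn] at this
  -- the gap
  have hconst : ∀ j, n₀ ≤ 2 ^ j → ∀ i, 2 ^ j + 1 + i ≤ 2 ^ (j + 1) →
      a (2 ^ j + 1 + i) = a (2 ^ j + 1) := by
    intro j hj i
    induction i with
    | zero => intro _; rfl
    | succ i ih =>
      intro hi
      rw [← ih (by omega), show 2 ^ j + 1 + (i + 1) = 2 ^ j + 1 + i + 1 by ring,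
        harec _ (by omega), clog_eq (j := j) (m := 2 ^ j + 1 + i + 1) (by omega) (by omega),
        clog_eq (j := j) (m := 2 ^ j + 1 + i) (by omega) (by omega)]
      simp
  have hgap : ∀ j, n₀ ≤ 2 ^ j → 1 ≤ j →
      0 < S * 66 ^ (2 ^ j + 1) - μ (2 ^ j + 1) ∧
      (S * 66 ^ (2 ^ j + 1) - μ (2 ^ j + 1)) * 66 ^ (2 ^ j) ≤ 64 * 66 := by
    intro j hj hj1
    have hp : 2 ^ (j + 1) = 2 ^ j + 2 ^ j := by ring
    have h1j : 1 ≤ 2 ^ j := Nat.one_le_two_pow
    obtain ⟨i, hi⟩ : ∃ i, 2 ^ (j + 1) = 2 ^ j + 1 + i := ⟨2 ^ j - 1, by omega⟩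
    have hc : a (2 ^ (j + 1)) = a (2 ^ j + 1) := by
      rw [hi]
      exact hconst j hj i (by omega)
    have hn1 : n₀ ≤ 2 ^ (j + 1) := by omega
    have e1 := harec _ hn1
    rw [clog_eq (j := j + 1) (m := 2 ^ (j + 1) + 1) (by omega)
      (by rw [pow_succ 2 (j + 1)]; omega), clog_eq (j := j) (m := 2 ^ (j + 1)) (by omega) le_rfl,
      hc] at e1
    have e2 := hSa (2 ^ (j + 1) + 1) (by omega)
    have e3 := hSb (2 ^ (j + 1)) hn1
    simp only [hb] at e3
    rw [hc] at e3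
    have e4 : a (2 ^ j + 1) = (μ (2 ^ j + 1) : ℝ) / 66 ^ (2 ^ j + 1) := rfl
    have e5 : a (2 ^ j + 1) * 66 ^ (2 ^ j + 1) = μ (2 ^ j + 1) := by
      rw [e4]
      exact div_mul_cancel₀ _ (hpos _).ne'
    have e6 : a (2 ^ j + 1) < S := by
      have : (0 : ℝ) < 4160 * (((j + 1 + 1 : ℕ) : ℝ) - ((j + 1 : ℕ) : ℝ)) /
          66 ^ (2 ^ (j + 1) + 1) := by
        push_cast
        have := hpos (2 ^ (j + 1) + 1)
        have h7 : (4160 : ℝ) * ((j : ℝ) + 1 + 1 - (j + 1)) = 4160 := by ring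
        rw [h7]
        positivity
      linarith
    have hP := hpos (2 ^ j + 1)
    constructor
    · rw [← e5]
      have := mul_lt_mul_of_pos_right e6 hP
      linarith
    · rw [← e5, ← sub_mul]
      have h8 : S - a (2 ^ j + 1) ≤ 64 / 66 ^ (2 ^ (j + 1)) := by linarith
      calc (S - a (2 ^ j + 1)) * 66 ^ (2 ^ j + 1) * 66 ^ (2 ^ j)
          ≤ 64 / 66 ^ (2 ^ (j + 1)) * 66 ^ (2 ^ j + 1) * 66 ^ (2 ^ j) := by
            apply mul_le_mul_of_nonneg_right _ (hpos _).le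
            exact mul_le_mul_of_nonneg_right h8 hP.le
        _ = 64 * 66 := by
            rw [hp, pow_add, pow_succ]
            have := hpos (2 ^ j)
            field_simp
  have hirr : Irrational S := by
    rintro ⟨x, hx⟩
    have hq : (0 : ℝ) < x.den := by exact_mod_cast x.den_pos
    have hSx : S * x.den = x.num := by
      rw [← hx]
      exact_mod_cast Rat.mul_den_eq_num x
    -- choose j
    obtain ⟨j, hj⟩ : ∃ j : ℕ, n₀ + 64 * 66 * x.den + 1 ≤ j := ⟨_, le_rfl⟩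
    have hj2 : j < 2 ^ j := Nat.lt_two_pow_self
    obtain ⟨g1, g2⟩ := hgap j (by omega) (by omega)
    have hint : ((x.num * 66 ^ (2 ^ j + 1) - x.den * μ (2 ^ j + 1) : ℤ) : ℝ) =
        (S * 66 ^ (2 ^ j + 1) - μ (2 ^ j + 1)) * x.den := by
      push_cast
      rw [← hSx]
      ring
    have hposI : 0 < x.num * 66 ^ (2 ^ j + 1) - x.den * μ (2 ^ j + 1) := by
      have : (0 : ℝ) < ((x.num * 66 ^ (2 ^ j + 1) - x.den * μ (2 ^ j + 1) : ℤ) : ℝ) := by
        rw [hint]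
        exact mul_pos g1 hq
      exact_mod_cast this
    have h1 : (1 : ℝ) ≤ (S * 66 ^ (2 ^ j + 1) - μ (2 ^ j + 1)) * x.den := by
      rw [← hint]
      exact_mod_cast hposI
    have h2 : (66 : ℝ) ^ (2 ^ j) ≤ 64 * 66 * x.den := by
      have := mul_le_mul_of_nonneg_right h1 (hpos (2 ^ j)).le
      have h3 := mul_le_mul_of_nonneg_right g2 hq.le
      nlinarith
    have h3 : 66 ^ (2 ^ j) ≤ 64 * 66 * x.den := by exact_mod_cast h2
    have h4 : 2 ^ j < 2 ^ (2 ^ j) := Nat.lt_two_pow_self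
    have h5 : 2 ^ (2 ^ j) ≤ 66 ^ (2 ^ j) := Nat.pow_le_pow_left (by norm_num) _
    omega
  refine ⟨S / 4225, ?_, ?_⟩
  · have : Irrational (S / (4225 : ℕ)) := hirr.div_natCast (by norm_num)
    simpa using this
  · have t1 : Tendsto (fun n : ℕ => (n : ℝ) / 66 ^ n) atTop (nhds 0) := by
      have := tendsto_pow_const_div_const_pow_of_one_lt 1 (by norm_num : (1 : ℝ) < 66)
      simpa using this
    have t2 : Tendsto (fun n : ℕ => (1 : ℝ) / 66 ^ n) atTop (nhds 0) := by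
      have := tendsto_pow_const_div_const_pow_of_one_lt 0 (by norm_num : (1 : ℝ) < 66)
      simpa using this
    have t3 : Tendsto (fun n : ℕ => (Nat.clog 2 n : ℝ) / 66 ^ n) atTop (nhds 0) := by
      refine squeeze_zero (fun n => by positivity) (fun n => ?_) t1
      apply div_le_div_of_nonneg_right _ (hpos _).le
      exact_mod_cast clog_le n
    have t4 : Tendsto (fun n : ℕ => a n / 4225 + (65 / 4225) * ((n : ℝ) / 66 ^ n) +
        (65 / 4225) * ((Nat.clog 2 n : ℝ) / 66 ^ n) + (1 / 4225 - 65 * C / 4225) * (1 / 66 ^ n))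
        atTop (nhds (S / 4225 + (65 / 4225) * 0 + (65 / 4225) * 0 +
          (1 / 4225 - 65 * C / 4225) * 0)) :=
      (((hlim'.div_const _).add (t1.const_mul _)).add (t3.const_mul _)).add (t2.const_mul _)
    have e : S / 4225 + (65 / 4225) * 0 + (65 / 4225) * 0 +
          (1 / 4225 - 65 * (C : ℝ) / 4225) * 0 = S / 4225 := by ring
    rw [e] at t4
    refine t4.congr fun n => ?_
    have hP := hpos n
    simp only [ha, hμ]
    push_cast
    field_simp
    ring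

end Pool.Agent.H82R2.Dim
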