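import Pool.Agent.H82R2.Dim.Struct
import Pool.Agent.H82R2.Dim.HOrder
import Pool.Agent.H82R2.Dim.Irr

/-! The recursion for the orders. -/

set_option linter.all false

namespace Pool.Agent.H82R2.Dim

open Q
open scoped commutatorElement

/-! ### general bounds -/

section general

lemma card_comm_le {A : Type*} [CommGroup A] {m : ℕ} (t : Fin m → A) (ht : ∀ i, t i ^ 64 = 1)
    (hgen : Subgroup.closure (Set.range t) = ⊤) : Nat.card A ≤ 64 ^ m ∧ Finite A := by
  have hs : Function.Surjective (fun k : Fin m → Fin 64 => ∏ i, t i ^ (k i : ℕ)) := by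
    intro x
    have hx : x ∈ Subgroup.closure (Set.range t) := by rw [hgen]; trivial
    obtain ⟨a, rfl⟩ := Subgroup.exists_of_mem_closure_range t x hx
    refine ⟨fun i => ⟨(a i % 64).toNat, ?_⟩, ?_⟩
    · have h1 := Int.emod_nonneg (a i) (show (64 : ℤ) ≠ 0 by norm_num)
      have h2 := Int.emod_lt_of_pos (a i) (show (0 : ℤ) < 64 by norm_num)
      omega
    · apply Finset.prod_congr rfl
      intro i _
      have h1 := Int.emod_nonneg (a i) (show (64 : ℤ) ≠ 0 by norm_num)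
      show t i ^ ((a i % 64).toNat) = t i ^ (a i)
      rw [← zpow_natCast, Int.toNat_of_nonneg h1]
      conv_rhs => rw [← Int.emod_add_mul_ediv (a i) 64]
      rw [zpow_add, zpow_mul]
      have : t i ^ (64 : ℤ) = 1 := by exact_mod_cast ht i
      rw [this, one_zpow, mul_one]
  have hfin : Finite A := Finite.of_surjective _ hs
  refine ⟨?_, hfin⟩
  have := Nat.card_le_card_of_surjective _ hs
  simpa [Nat.card_eq_fintype_card] using this

lemma card_le_of_gens {Γ : Type*} [Group Γ] [Finite Γ] {N K : Subgroup Γ} (hKN : K ≤ N)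
    (hc : ∀ x ∈ N, ∀ y ∈ N, ⁅x, y⁆ ∈ K) {m : ℕ} (t : Fin m → Γ) (htN : ∀ i, t i ∈ N)
    (ht : ∀ i, t i ^ 64 = 1) (hgen : N ≤ Subgroup.closure (Set.range t ∪ K)) :
    Nat.card N ≤ 64 ^ m * Nat.card K := by
  let K' : Subgroup N := K.subgroupOf N
  have hn : K'.Normal := by
    constructor
    intro k hk g
    have hk' : (k : Γ) ∈ K := hk
    show (g : Γ) * k * (g : Γ)⁻¹ ∈ K
    have h1 := hc g g.2 k k.2
    have : (g : Γ) * k * (g : Γ)⁻¹ = ⁅(g : Γ), (k : Γ)⁆ * k := by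
      rw [commutatorElement_def]; group
    rw [this]
    exact mul_mem h1 hk'
  let π : N →* N ⧸ K' := QuotientGroup.mk' K'
  have hcomm : ∀ x y : N ⧸ K', x * y = y * x := by
    intro x y
    obtain ⟨x, rfl⟩ := QuotientGroup.mk'_surjective K' x
    obtain ⟨y, rfl⟩ := QuotientGroup.mk'_surjective K' y
    have h1 : π ⁅x, y⁆ = 1 := by
      show QuotientGroup.mk' K' ⁅x, y⁆ = 1
      rw [QuotientGroup.mk'_apply, QuotientGroup.eq_one_iff]
      exact hc x x.2 y y.2
    rw [map_commutatorElement, commutatorElement_eq_one_iff_mul_comm] at h1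
    exact h1
  letI : CommGroup (N ⧸ K') := { (inferInstance : Group (N ⧸ K')) with mul_comm := hcomm }
  let u : Fin m → N ⧸ K' := fun i => π ⟨t i, htN i⟩
  have hu : ∀ i, u i ^ 64 = 1 := by
    intro i
    show (π ⟨t i, htN i⟩) ^ 64 = 1
    rw [← map_pow]
    have : (⟨t i, htN i⟩ : N) ^ 64 = 1 := Subtype.ext (ht i)
    rw [this, map_one]
  have hcl : Subgroup.closure (Set.range u) = ⊤ := by
    rw [eq_top_iff]
    let M : Subgroup Γ := ((Subgroup.closure (Set.range u)).comap π).map N.subtype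
    have hM : N ≤ M := by
      refine hgen.trans ?_
      rw [Subgroup.closure_le]
      rintro x (⟨i, rfl⟩ | hx)
      · exact ⟨⟨t i, htN i⟩, Subgroup.subset_closure ⟨i, rfl⟩, rfl⟩
      · refine ⟨⟨x, hKN hx⟩, ?_, rfl⟩
        show π ⟨x, hKN hx⟩ ∈ Subgroup.closure (Set.range u)
        have : π ⟨x, hKN hx⟩ = 1 := by
          show QuotientGroup.mk' K' _ = 1
          rw [QuotientGroup.mk'_apply, QuotientGroup.eq_one_iff]
          exact hx
        rw [this]; exact one_mem _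
    intro y _
    obtain ⟨y, rfl⟩ := QuotientGroup.mk'_surjective K' y
    obtain ⟨y', hy', he⟩ := hM y.2
    have : y' = y := Subtype.ext he
    rw [← this]; exact hy'
  have h1 := (card_comm_le u hu hcl).1
  have h2 : Nat.card (N ⧸ K') * Nat.card K' = Nat.card N := by
    rw [← Subgroup.card_eq_card_quotient_mul_card_subgroup]
  have h3 : Nat.card K' = Nat.card K :=
    Nat.card_congr (Subgroup.subgroupOfEquivOfLe hKN).toEquiv
  rw [← h2, h3]
  exact Nat.mul_le_mul_right _ h1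

end general

/-! ### bounds for our groups -/

lemma card_G_le (n : ℕ) : Nat.card (G n) ≤ 64 ^ 7 * Nat.card (J n) := by
  have hJG : J n ≤ G n := by
    unfold J
    exact Subgroup.commutator_le_self _
  refine card_le_of_gens hJG (fun x hx y hy => Subgroup.commutator_mem_commutator hx hy)
    (fun i : Fin 7 => el n (gen i)) (fun i => el_mem _ _) (fun i => pow64 n _) ?_
  rw [G_eq, Subgroup.closure_le]
  rintro _ ⟨j, hj, rfl⟩
  exact Subgroup.subset_closure (Or.inl ⟨⟨j, hj⟩, rfl⟩)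

def tq : Fin 4 → Q := ![l, f, d1, d2]

lemma card_Nc_le (n : ℕ) : Nat.card (Nc n) ≤ 64 ^ 4 * Nat.card (K n) := by
  have hKN : K n ≤ Nc n := by
    unfold K
    rw [Subgroup.commutator_le]
    intro g₁ h₁ g₂ h₂
    rw [commutatorElement_def]
    exact mul_mem (Nc_conj h₁ h₂) (inv_mem h₂)
  have hT : ∀ i : Fin 4, el n (tq i) ∈ T n := by
    intro i
    fin_cases i
    · exact Or.inl rfl
    · exact Or.inr (Or.inl rfl)
    · exact Or.inr (Or.inr (Or.inl rfl))
    · exact Or.inr (Or.inr (Or.inr rfl))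
  have hT' : ∀ t ∈ T n, ∃ i : Fin 4, el n (tq i) = t := by
    rintro t (rfl | rfl | rfl | rfl)
    · exact ⟨0, rfl⟩
    · exact ⟨1, rfl⟩
    · exact ⟨2, rfl⟩
    · exact ⟨3, rfl⟩
  refine card_le_of_gens hKN
    (fun x hx y hy => Subgroup.commutator_mem_commutator (Nc_le_G n hx) hy)
    (fun i : Fin 4 => el n (tq i)) (fun i => T_subset_Nc (hT i)) (fun i => pow64 n _) ?_
  conv_lhs => unfold Nc
  rw [Subgroup.closure_le]
  rintro _ ⟨h, hh, t, ht, rfl⟩
  obtain ⟨i, rfl⟩ := hT' t ht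
  have e : h * el n (tq i) * h⁻¹ = ⁅h, el n (tq i)⁆ * el n (tq i) := by
    rw [commutatorElement_def]; group
  rw [e]
  rw [← G_eq] at hh
  exact mul_mem (Subgroup.subset_closure (Or.inr
    (Subgroup.commutator_mem_commutator hh (T_subset_Nc ht))))
    (Subgroup.subset_closure (Or.inl ⟨i, rfl⟩))

/-! ### restriction maps -/

lemma map_G (n : ℕ) : (G (n + 1)).map (res P Z n) = G n := by
  unfold G
  rw [MonoidHom.map_closure, ← Set.range_comp]
  congr 2
  funext q
  exact res_el n q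

lemma map_Nc (n : ℕ) : (Nc (n + 1)).map (res P Z n) = Nc n := by
  conv_lhs => unfold Nc
  conv_rhs => unfold Nc
  rw [MonoidHom.map_closure]
  congr 1
  ext x
  constructor
  · rintro ⟨_, ⟨h, hh, t, ht, rfl⟩, rfl⟩
    rw [← G_eq] at hh
    refine ⟨res P Z n h, ?_, res P Z n t, ?_, by simp⟩
    · rw [← G_eq, ← map_G]; exact ⟨h, hh, rfl⟩
    · rcases ht with rfl | rfl | rfl | rfl
      · exact Or.inl (res_el n _)
      · exact Or.inr (Or.inl (res_el n _))
      · exact Or.inr (Or.inr (Or.inl (res_el n _)))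
      · exact Or.inr (Or.inr (Or.inr (res_el n _)))
  · rintro ⟨h, hh, t, ht, rfl⟩
    rw [← G_eq, ← map_G] at hh
    obtain ⟨h', hh', rfl⟩ := hh
    have : ∃ t' ∈ T (n + 1), res P Z n t' = t := by
      rcases ht with rfl | rfl | rfl | rfl
      · exact ⟨_, Or.inl rfl, res_el n _⟩
      · exact ⟨_, Or.inr (Or.inl rfl), res_el n _⟩
      · exact ⟨_, Or.inr (Or.inr (Or.inl rfl)), res_el n _⟩
      · exact ⟨_, Or.inr (Or.inr (Or.inr rfl)), res_el n _⟩
    obtain ⟨t', ht', rfl⟩ := this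
    refine ⟨h' * t' * h'⁻¹, ⟨h', ?_, t', ht', rfl⟩, by simp⟩
    rw [← G_eq]; exact hh'

lemma map_Full (n : ℕ) : (Full (n + 1)).map (res P Z (n + 1)) = Full n := by
  apply le_antisymm
  · rintro _ ⟨g, hg, rfl⟩
    obtain ⟨h1, h2, h3⟩ := hg
    refine ⟨h1, fun x => ?_, fun r => ?_⟩
    · show res P Z n (wc g (Sum.inl x)) ∈ Nc n
      rw [← map_Nc]; exact ⟨_, h2 x, rfl⟩
    · show res P Z n (wc g (Sum.inr r)) ∈ G n
      rw [← map_G]; exact ⟨_, h3 r, rfl⟩
  · intro g hg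
    obtain ⟨h1, h2, h3⟩ := hg
    have h2' : ∀ x, ∃ y ∈ Nc (n + 1), res P Z n y = wc g (Sum.inl x) := by
      intro x
      have := h2 x
      rw [← map_Nc] at this
      obtain ⟨y, hy, he⟩ := this
      exact ⟨y, hy, he⟩
    have h3' : ∀ r, ∃ y ∈ G (n + 1), res P Z n y = wc g (Sum.inr r) := by
      intro r
      have := h3 r
      rw [← map_G] at this
      obtain ⟨y, hy, he⟩ := this
      exact ⟨y, hy, he⟩
    choose u hu hu' using h2'
    choose v hv hv' using h3'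
    refine ⟨(⟨fun z => match z with
        | Sum.inl x => u x
        | Sum.inr r => v r, wp g⟩ : Node P Z (V (n + 1))), ⟨h1, hu, hv⟩, ?_⟩
    apply w_ext
    · intro z
      rcases z with x | r
      · exact hu' x
      · exact hv' r
    · rfl

/-- the defect -/
noncomputable def ee (n : ℕ) : ℕ := (Nc (n + 1)).relIndex (Full n)

lemma ee_mul (n : ℕ) : Nat.card (Nc (n + 1)) * ee n = Nat.card (Full n) := by
  have := Subgroup.relIndex_mul_relIndex (⊥ : Subgroup (V (n + 1))) (Nc (n + 1)) (Full n) bot_le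
    (Nc_le_Full n)
  rwa [Subgroup.relIndex_bot_left, Subgroup.relIndex_bot_left] at this

lemma ee_pos (n : ℕ) : 0 < ee n := by
  have h := ee_mul n
  have h2 : 0 < Nat.card (Full n) := Nat.card_pos
  rcases Nat.eq_zero_or_pos (ee n) with h0 | h0
  · rw [h0, mul_zero] at h; omega
  · exact h0

lemma ee_dvd (n : ℕ) : ee n ∣ ee (n + 1) := by
  unfold ee
  rw [← map_Full n, ← Subgroup.relIndex_comap]
  apply Subgroup.relIndex_dvd_of_le_left
  rw [← Subgroup.map_le_iff_le_comap, map_Nc]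

lemma ee_mono : Monotone ee := monotone_nat_of_le_succ (fun n =>
  Nat.le_of_dvd (ee_pos _) (ee_dvd n))

/-- uniform bound -/
lemma ee_le (n : ℕ) : ee n ≤ 64 * ((64 ^ 4) ^ 2 * (64 ^ 7) ^ 64) := by
  have h1 := card_prod_le n
  have h2 := card_Full n
  have h3 := ee_mul n
  have h4 := card_G_le n
  have h5 := card_Nc_le n
  have hN : 0 < Nat.card (Nc (n + 1)) := Nat.card_pos
  have : Nat.card (Nc (n + 1)) * ee n ≤
      Nat.card (Nc (n + 1)) * (64 * ((64 ^ 4) ^ 2 * (64 ^ 7) ^ 64)) := by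
    calc Nat.card (Nc (n + 1)) * ee n = 64 * (Nat.card (Nc n) ^ 2 * Nat.card (G n) ^ 64) := by
          rw [h3, h2]
      _ ≤ 64 * ((64 ^ 4 * Nat.card (K n)) ^ 2 * (64 ^ 7 * Nat.card (J n)) ^ 64) := by
          apply Nat.mul_le_mul_left
          exact Nat.mul_le_mul (Nat.pow_le_pow_left h5 2) (Nat.pow_le_pow_left h4 64)
      _ = (Nat.card (K n) ^ 2 * Nat.card (J n) ^ 64) * (64 * ((64 ^ 4) ^ 2 * (64 ^ 7) ^ 64)) := by
          rw [mul_pow, mul_pow]; ring
      _ ≤ _ := Nat.mul_le_mul_right _ h1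
  exact Nat.le_of_mul_le_mul_left this hN

lemma ee_eventually : ∃ n₀, ∀ n, n₀ ≤ n → ee n = ee n₀ := by
  have hb : BddAbove (Set.range ee) := ⟨_, by rintro _ ⟨n, rfl⟩; exact ee_le n⟩
  obtain ⟨n₀, hn₀⟩ := Nat.sSup_mem (Set.range_nonempty ee) hb
  refine ⟨n₀, fun n hn => le_antisymm ?_ (ee_mono hn)⟩
  rw [hn₀]
  exact le_csSup hb ⟨n, rfl⟩

/-! ### powers of two -/

lemma card_V (n : ℕ) : ∃ k, Nat.card (V n) = 2 ^ k := by
  induction n with
  | zero => exact ⟨0, by
      haveI : Subsingleton (V 0) := inferInstanceAs (Subsingleton PUnit)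
      rw [pow_zero, Nat.card_eq_one_iff_unique]
      exact ⟨inferInstance, ⟨1⟩⟩⟩
  | succ n ih =>
    obtain ⟨k, hk⟩ := ih
    refine ⟨k * 66 + 7, ?_⟩
    rw [card_W_succ, hk]
    have h1 : Nat.card Z = 66 := by simp [Z]
    have h2 : Nat.card P = 128 := by
      show Nat.card (Multiplicative (ZMod 2 × ZMod 64)) = 128
      rw [Nat.card_congr Multiplicative.toAdd, Nat.card_prod]; simp
    rw [h1, h2, pow_add, pow_mul]; norm_num

lemma card_sub (n : ℕ) (H : Subgroup (V n)) : ∃ k, Nat.card H = 2 ^ k := by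
  obtain ⟨k, hk⟩ := card_V n
  have := Subgroup.card_subgroup_dvd_card H
  rw [hk] at this
  obtain ⟨j, _, hj⟩ := (Nat.dvd_prime_pow Nat.prime_two).1 this
  exact ⟨j, hj⟩

lemma ee_pow (n : ℕ) : ∃ k, ee n = 2 ^ k := by
  obtain ⟨k, hk⟩ := card_sub (n + 1) (Full n)
  have h : ee n ∣ 2 ^ k := by rw [← hk, ← ee_mul n]; exact Dvd.intro_left _ rfl
  obtain ⟨j, _, hj⟩ := (Nat.dvd_prime_pow Nat.prime_two).1 h
  exact ⟨j, hj⟩

/-- `log₂ |Nc n|` -/
noncomputable def nu (n : ℕ) : ℕ := Classical.choose (card_sub n (Nc n))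
lemma nu_spec (n : ℕ) : Nat.card (Nc n) = 2 ^ nu n := Classical.choose_spec (card_sub n (Nc n))

lemma card_Hs (n : ℕ) (hn : 3 ≤ n) : Nat.card (Hs n) = 2 ^ (n + 1 + Nat.clog 2 n) :=
  card_H n hn

theorem card_G_eq (n : ℕ) (hn : 3 ≤ n) :
    Nat.card (G n) = 2 ^ (nu n + (n + 1 + Nat.clog 2 n)) := by
  rw [card_G, nu_spec, card_Hs n hn, ← pow_add]

theorem recursion : ∃ (C : ℤ) (n₀ : ℕ), ∀ n, n₀ ≤ n →
    (nu (n + 1) : ℤ) = 66 * nu n + 64 * (n + 1 + Nat.clog 2 n) + C := by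
  obtain ⟨n₀, hn₀⟩ := ee_eventually
  obtain ⟨k, hk⟩ := ee_pow n₀
  refine ⟨6 - k, max n₀ 3, fun n hn => ?_⟩
  have h1 := ee_mul n
  rw [hn₀ n (le_trans (le_max_left _ _) hn), hk, card_Full, nu_spec, nu_spec,
    card_G_eq n (le_trans (le_max_right _ _) hn)] at h1
  have h2 : 2 ^ (nu (n + 1) + k) = 2 ^ (6 + (nu n * 2 + (nu n + (n + 1 + Nat.clog 2 n)) * 64)) := by
    rw [pow_add, h1, ← pow_mul, ← pow_mul, ← pow_add, show (64 : ℕ) = 2 ^ 6 by norm_num,
      ← pow_add]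
  have h3 := Nat.pow_right_injective (le_refl 2) h2
  push_cast
  have h4 : ((nu (n + 1) + k : ℕ) : ℤ) =
      ((6 + (nu n * 2 + (nu n + (n + 1 + Nat.clog 2 n)) * 64) : ℕ) : ℤ) := by rw [h3]
  push_cast at h4
  linarith

end Pool.Agent.H82R2.Dim
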