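import Pool.Agent.H82R2.Dim.Transport

/-! The same group acting on the tree whose letters are pairs of letters. -/

set_option linter.all false

namespace Pool.Agent.H82R2.Dim

variable {Q A : Type}

/-- pairs of letters -/
def Mealy.square (M : Mealy Q A) : Mealy Q (A × A) where
  out q :=
    { toFun := fun x => (M.out q x.1, M.out (M.nxt q x.1) x.2)
      invFun := fun y => ((M.out q).symm y.1, (M.out (M.nxt q ((M.out q).symm y.1))).symm y.2)
      left_inv := fun x => by simp
      right_inv := fun y => by simp }
  nxt q x := M.nxt (M.nxt q x.1) x.2

def flat : List (A × A) → List A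
  | [] => []
  | x :: w => x.1 :: x.2 :: flat w

lemma flat_injective : Function.Injective (flat : List (A × A) → List A) := by
  intro v w h
  induction v generalizing w with
  | nil => cases w with
    | nil => rfl
    | cons y w => simp [flat] at h
  | cons x v ih => cases w with
    | nil => simp [flat] at h
    | cons y w =>
      simp only [flat, List.cons.injEq] at h
      rw [ih h.2.2, Prod.ext h.1 h.2.1]

lemma flat_length (w : List (A × A)) : (flat w).length = 2 * w.length := by
  induction w with
  | nil => rfl
  | cons x w ih => simp [flat, ih]; ring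

lemma exists_flat (n : ℕ) (w : List A) (hw : w.length = 2 * n) :
    ∃ v : List (A × A), v.length = n ∧ flat v = w := by
  induction n generalizing w with
  | zero => exact ⟨[], rfl, (List.length_eq_zero_iff.1 (by simpa using hw)).symm⟩
  | succ n ih =>
    match w, hw with
    | [], hw => simp at hw
    | [x], hw => simp at hw; omega
    | x :: y :: w, hw =>
      obtain ⟨v, hv, hv'⟩ := ih w (by simp at hw; omega)
      exact ⟨(x, y) :: v, by simp [hv], by simp [flat, hv']⟩

lemma square_act (M : Mealy Q A) (q : Q) (w : List (A × A)) :
    flat (M.square.act q w) = M.act q (flat w) := by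
  induction w generalizing q with
  | nil => rfl
  | cons x w ih =>
    show M.out q x.1 :: M.out (M.nxt q x.1) x.2 :: flat (M.square.act (M.nxt (M.nxt q x.1) x.2) w)
      = M.out q x.1 :: M.out (M.nxt q x.1) x.2 :: M.act (M.nxt (M.nxt q x.1) x.2) (flat w)
    rw [ih]

/-- the action of the free group on the states -/
def Mealy.rep (M : Mealy Q A) : FreeGroup Q →* Equiv.Perm (List A) := FreeGroup.lift M.perm

lemma levelCard_eq_index (M : Mealy Q A) (n : ℕ) :
    M.levelCard n = ((levelStab A n).comap M.rep).index := by
  unfold Mealy.levelCard
  have : M.rep.range = M.group := FreeGroup.range_lift_eq_closure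
  rw [← this, Subgroup.index_comap]

lemma square_rep (M : Mealy Q A) (u : FreeGroup Q) (w : List (A × A)) :
    flat (M.square.rep u w) = M.rep u (flat w) := by
  induction u using FreeGroup.induction_on generalizing w with
  | C1 => rw [map_one, map_one]; rfl
  | of q =>
    simp only [Mealy.rep, FreeGroup.lift_apply_of]
    exact square_act M q w
  | inv_of q ih =>
    have h1 := ih (M.square.rep (FreeGroup.of q)⁻¹ w)
    rw [map_inv, map_inv] at *
    have h2 : (M.square.rep (FreeGroup.of q)) ((M.square.rep (FreeGroup.of q))⁻¹ w) = w := by
      rw [← Equiv.Perm.mul_apply, mul_inv_cancel]; rfl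
    rw [h2] at h1
    rw [h1, ← Equiv.Perm.mul_apply, inv_mul_cancel]; rfl
  | mul u v hu hv =>
    rw [map_mul, map_mul, Equiv.Perm.mul_apply, Equiv.Perm.mul_apply, hu, hv]

theorem levelCard_square (M : Mealy Q A) (n : ℕ) :
    M.square.levelCard n = M.levelCard (2 * n) := by
  rw [levelCard_eq_index, levelCard_eq_index]
  congr 1
  ext u
  constructor
  · intro h w hw
    obtain ⟨v, hv, rfl⟩ := exists_flat n w hw
    have := h v hv
    rw [← square_rep, this]
  · intro h v hv
    apply flat_injective
    rw [square_rep]
    exact h _ (by rw [flat_length, hv])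

end Pool.Agent.H82R2.Dim
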