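import Pool.Agent.H82R2.Dim.Comm2

/-! The decomposition `G n = Nc n ⋊ Hs n`, self-similarity, and the group `Full n`. -/

set_option linter.all false

namespace Pool.Agent.H82R2.Dim

open Q
open scoped commutatorElement

variable {n : ℕ}

/-- acting trivially on words over the letters `inl` -/
def A : (n : ℕ) → Subgroup (V n)
  | 0 => ⊤
  | n + 1 =>
    { carrier := {g | (wp g).toAdd.1 = 0 ∧ ∀ x, wc g (Sum.inl x) ∈ A n}
      one_mem' := ⟨rfl, fun x => (A n).one_mem⟩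
      mul_mem' := by
        rintro g h ⟨hg, hg'⟩ ⟨hh, hh'⟩
        refine ⟨?_, fun x => ?_⟩
        · rw [w_mul_p]
          show (wp g).toAdd.1 + (wp h).toAdd.1 = 0
          rw [hg, hh, add_zero]
        · rw [w_mul_c, smul_inl, hh, zero_add]
          exact (A n).mul_mem (hg' x) (hh' x)
      inv_mem' := by
        rintro g ⟨hg, hg'⟩
        refine ⟨?_, fun x => ?_⟩
        · rw [w_inv_p]
          show -(wp g).toAdd.1 = 0
          rw [hg, neg_zero]
        · rw [w_inv_c, smul_inl]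
          exact (A n).inv_mem (hg' _) }

lemma mem_A_succ {g : V (n + 1)} :
    g ∈ A (n + 1) ↔ (wp g).toAdd.1 = 0 ∧ ∀ x, wc g (Sum.inl x) ∈ A n := Iff.rfl

lemma A_normal (n : ℕ) : ∀ g a : V n, a ∈ A n → g * a * g⁻¹ ∈ A n := by
  induction n with
  | zero => intro g a _; trivial
  | succ n ih =>
    intro g a ha
    rw [mem_A_succ] at ha ⊢
    refine ⟨?_, fun x => ?_⟩
    · rw [w_mul_p, w_mul_p, w_inv_p, mul_comm (wp g), mul_assoc, mul_inv_cancel, mul_one]
      exact ha.1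
    · rw [w_mul_c, w_mul_c, w_inv_c, w_inv_p]
      obtain ⟨y, hy⟩ : ∃ y, (wp g)⁻¹ • (Sum.inl x : Z) = Sum.inl y := ⟨_, smul_inl _ _⟩
      rw [hy, smul_inl, ha.1, zero_add]
      exact ih _ _ (ha.2 y)

/-- supported on words over the letters `inl` -/
def B : (n : ℕ) → Subgroup (V n)
  | 0 => ⊤
  | n + 1 =>
    { carrier := {g | (wp g).toAdd.2 = 0 ∧ (∀ r, wc g (Sum.inr r) = 1) ∧
        ∀ x, wc g (Sum.inl x) ∈ B n}
      one_mem' := ⟨rfl, fun r => rfl, fun x => (B n).one_mem⟩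
      mul_mem' := by
        rintro g h ⟨hg, hgr, hg'⟩ ⟨hh, hhr, hh'⟩
        refine ⟨?_, fun r => ?_, fun x => ?_⟩
        · rw [w_mul_p]
          show (wp g).toAdd.2 + (wp h).toAdd.2 = 0
          rw [hg, hh, add_zero]
        · rw [w_mul_c, smul_inr, hgr, hhr, one_mul]
        · rw [w_mul_c, smul_inl]
          exact (B n).mul_mem (hg' _) (hh' x)
      inv_mem' := by
        rintro g ⟨hg, hgr, hg'⟩
        refine ⟨?_, fun r => ?_, fun x => ?_⟩
        · rw [w_inv_p]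
          show -(wp g).toAdd.2 = 0
          rw [hg, neg_zero]
        · rw [w_inv_c, smul_inr, hgr, inv_one]
        · rw [w_inv_c, smul_inl]
          exact (B n).inv_mem (hg' _) }

lemma mem_B_succ {g : V (n + 1)} :
    g ∈ B (n + 1) ↔ (wp g).toAdd.2 = 0 ∧ (∀ r, wc g (Sum.inr r) = 1) ∧
      ∀ x, wc g (Sum.inl x) ∈ B n := Iff.rfl

lemma A_inf_B (n : ℕ) : ∀ g : V n, g ∈ A n → g ∈ B n → g = 1 := by
  induction n with
  | zero => intro g _ _; exact Subsingleton.elim _ _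
  | succ n ih =>
    intro g hA hB
    rw [mem_A_succ] at hA
    rw [mem_B_succ] at hB
    apply w_ext
    · intro z
      rcases z with x | r
      · exact ih _ (hA.2 x) (hB.2.2 x)
      · exact hB.2.1 r
    · have : (wp g).toAdd = 0 := Prod.ext hA.1 hB.1
      exact this

lemma T_mem_A (n : ℕ) : el n l ∈ A n ∧ el n f ∈ A n ∧ el n d1 ∈ A n ∧ el n d2 ∈ A n := by
  induction n with
  | zero => exact ⟨trivial, trivial, trivial, trivial⟩
  | succ n ih =>
    have he : el n e ∈ A n := by rw [el_e]; exact one_mem _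
    refine ⟨⟨rfl, fun x => he⟩, ⟨rfl, fun x => ?_⟩, ⟨rfl, fun x => ?_⟩, ⟨rfl, fun x => ?_⟩⟩
    · show el n (if x = 0 then f else l) ∈ A n
      by_cases hx : x = 0
      · rw [if_pos hx]; exact ih.2.1
      · rw [if_neg hx]; exact ih.1
    · show el n (if x = 0 then d1 else e) ∈ A n
      by_cases hx : x = 0
      · rw [if_pos hx]; exact ih.2.2.1
      · rw [if_neg hx]; exact he
    · show el n (if x = 0 then e else d2) ∈ A n
      by_cases hx : x = 0
      · rw [if_pos hx]; exact he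
      · rw [if_neg hx]; exact ih.2.2.2

lemma H_mem_B (n : ℕ) : el n s ∈ B n ∧ el n a ∈ B n ∧ el n b ∈ B n := by
  induction n with
  | zero => exact ⟨trivial, trivial, trivial⟩
  | succ n ih =>
    have he : el n e = 1 := el_e n
    refine ⟨⟨rfl, fun r => he, fun x => ?_⟩, ⟨rfl, fun r => he, fun x => ih.2.2⟩,
      ⟨rfl, fun r => he, fun x => ?_⟩⟩
    · show el n e ∈ B n
      rw [he]; exact one_mem _
    · show el n (if x = 0 then a else c) ∈ B n
      by_cases hx : x = 0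
      · rw [if_pos hx]; exact ih.2.1
      · rw [if_neg hx, el_c_eq]; exact mul_mem ih.1 ih.2.1

/-- the dihedral lamplighter type group -/
def Hs (n : ℕ) : Subgroup (V n) := Subgroup.closure {el n s, el n a, el n b}

lemma Hs_le_B (n : ℕ) : Hs n ≤ B n := by
  unfold Hs
  rw [Subgroup.closure_le]
  rintro x (rfl | rfl | rfl)
  · exact (H_mem_B n).1
  · exact (H_mem_B n).2.1
  · exact (H_mem_B n).2.2

lemma Hs_le_G (n : ℕ) : Hs n ≤ G n := by
  unfold Hs
  rw [Subgroup.closure_le]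
  rintro x (rfl | rfl | rfl) <;> exact el_mem _ _

lemma Nc_le_G (n : ℕ) : Nc n ≤ G n := by
  unfold Nc
  rw [Subgroup.closure_le]
  rintro x ⟨h, hh, t, ht, rfl⟩
  rw [G_eq]
  exact mul_mem (mul_mem hh (T_subset ht)) (inv_mem hh)

lemma Nc_le_A (n : ℕ) : Nc n ≤ A n := by
  unfold Nc
  rw [Subgroup.closure_le]
  rintro x ⟨h, hh, t, ht, rfl⟩
  apply A_normal
  rcases ht with rfl | rfl | rfl | rfl
  · exact (T_mem_A n).1
  · exact (T_mem_A n).2.1
  · exact (T_mem_A n).2.2.1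
  · exact (T_mem_A n).2.2.2

lemma T_subset_Nc : T n ⊆ Nc n := fun t ht =>
  Subgroup.subset_closure ⟨1, one_mem _, t, ht, by simp⟩

lemma Nc_conj {g ν : V n} (hg : g ∈ G n) (hν : ν ∈ Nc n) : g * ν * g⁻¹ ∈ Nc n := by
  rw [G_eq] at hg
  unfold Nc at hν ⊢
  induction hν using Subgroup.closure_induction with
  | mem x hx =>
    obtain ⟨h, hh, t, ht, rfl⟩ := hx
    refine Subgroup.subset_closure ⟨g * h, mul_mem hg hh, t, ht, by group⟩
  | one => simp
  | mul x y _ _ hx hy =>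
    have : g * (x * y) * g⁻¹ = (g * x * g⁻¹) * (g * y * g⁻¹) := by group
    rw [this]; exact mul_mem hx hy
  | inv x _ hx =>
    have : g * x⁻¹ * g⁻¹ = (g * x * g⁻¹)⁻¹ := by group
    rw [this]; exact inv_mem hx

lemma G_decomp {g : V n} (hg : g ∈ G n) : ∃ ν ∈ Nc n, ∃ h ∈ Hs n, g = ν * h := by
  have hS : ∀ j, j < 7 → ∃ ν ∈ Nc n, ∃ h ∈ Hs n, el n (gen j) = ν * h := by
    intro j hj
    match j, hj with
    | 0, _ => exact ⟨1, one_mem _, el n s, Subgroup.subset_closure (by simp), by simp [gen]⟩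
    | 1, _ => exact ⟨1, one_mem _, el n a, Subgroup.subset_closure (by simp), by simp [gen]⟩
    | 2, _ => exact ⟨1, one_mem _, el n b, Subgroup.subset_closure (by simp), by simp [gen]⟩
    | 3, _ => exact ⟨el n l, T_subset_Nc (Or.inl rfl), 1, one_mem _, by simp [gen]⟩
    | 4, _ => exact ⟨el n f, T_subset_Nc (Or.inr (Or.inl rfl)), 1, one_mem _, by simp [gen]⟩
    | 5, _ => exact ⟨el n d1, T_subset_Nc (Or.inr (Or.inr (Or.inl rfl))), 1, one_mem _,
        by simp [gen]⟩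
    | 6, _ => exact ⟨el n d2, T_subset_Nc (Or.inr (Or.inr (Or.inr rfl))), 1, one_mem _,
        by simp [gen]⟩
  rw [G_eq] at hg
  induction hg using Subgroup.closure_induction with
  | mem x hx => obtain ⟨j, hj, rfl⟩ := hx; exact hS j hj
  | one => exact ⟨1, one_mem _, 1, one_mem _, by simp⟩
  | mul x y _ _ hx hy =>
    obtain ⟨ν, hν, h, hh, rfl⟩ := hx
    obtain ⟨ν', hν', h', hh', rfl⟩ := hy
    refine ⟨ν * (h * ν' * h⁻¹), mul_mem hν (Nc_conj (Hs_le_G n hh) hν'), h * h', mul_mem hh hh', ?_⟩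
    group
  | inv x _ hx =>
    obtain ⟨ν, hν, h, hh, rfl⟩ := hx
    refine ⟨h⁻¹ * ν⁻¹ * (h⁻¹)⁻¹, Nc_conj (inv_mem (Hs_le_G n hh)) (inv_mem hν), h⁻¹,
      inv_mem hh, ?_⟩
    group

lemma mem_Nc_iff {g : V n} : g ∈ Nc n ↔ g ∈ A n ∧ g ∈ G n := by
  constructor
  · intro h; exact ⟨Nc_le_A n h, Nc_le_G n h⟩
  · rintro ⟨hA, hG⟩
    obtain ⟨ν, hν, h, hh, rfl⟩ := G_decomp hG
    have hhA : h ∈ A n := by
      have := mul_mem (inv_mem (Nc_le_A n hν)) hA
      rwa [inv_mul_cancel_left] at this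
    rw [A_inf_B n h hhA (Hs_le_B n hh), mul_one]
    exact hν

instance : Finite (V n) := finiteW P Z n

theorem card_G (n : ℕ) : Nat.card (G n) = Nat.card (Nc n) * Nat.card (Hs n) := by
  rw [← Nat.card_prod]
  symm
  apply Nat.card_congr
  refine Equiv.ofBijective
    (fun x : Nc n × Hs n => (⟨x.1 * x.2, mul_mem (Nc_le_G n x.1.2) (Hs_le_G n x.2.2)⟩ : G n)) ⟨?_, ?_⟩
  · rintro ⟨⟨ν, hν⟩, ⟨h, hh⟩⟩ ⟨⟨ν', hν'⟩, ⟨h', hh'⟩⟩ heq
    simp only [Subtype.mk.injEq] at heq
    have e1 : ν'⁻¹ * ν = h' * h⁻¹ := by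
      rw [inv_mul_eq_iff_eq_mul, ← mul_assoc, ← heq, mul_inv_cancel_right]
    have e2 : ν'⁻¹ * ν = 1 := by
      apply A_inf_B
      · exact Nc_le_A n (mul_mem (inv_mem hν') hν)
      · rw [e1]; exact Hs_le_B n (mul_mem hh' (inv_mem hh))
    have e3 : ν = ν' := by
      rw [inv_mul_eq_one] at e2; exact e2.symm
    have e4 : h = h' := by
      rw [e2] at e1
      exact (mul_inv_eq_one.1 e1.symm).symm
    subst e3; subst e4; rfl
  · rintro ⟨g, hg⟩
    obtain ⟨ν, hν, h, hh, rfl⟩ := G_decomp hg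
    exact ⟨(⟨ν, hν⟩, ⟨h, hh⟩), rfl⟩

/-! ### self-similarity and `Full` -/

lemma sec_mem_G {g : V (n + 1)} (hg : g ∈ G (n + 1)) (z : Z) : wc g z ∈ G n := by
  unfold G at hg
  revert z
  induction hg using Subgroup.closure_induction with
  | mem x hx => obtain ⟨q, rfl⟩ := hx; intro z; exact el_mem _ _
  | one => intro z; exact one_mem _
  | mul x y _ _ hx hy => intro z; rw [w_mul_c]; exact mul_mem (hx _) (hy _)
  | inv x _ hx => intro z; rw [w_inv_c]; exact inv_mem (hx _)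

/-- all elements which are allowed at first sight -/
def Full (n : ℕ) : Subgroup (V (n + 1)) where
  carrier := {g | (wp g).toAdd.1 = 0 ∧ (∀ x, wc g (Sum.inl x) ∈ Nc n) ∧
    ∀ r, wc g (Sum.inr r) ∈ G n}
  one_mem' := ⟨rfl, fun x => one_mem _, fun r => one_mem _⟩
  mul_mem' := by
    rintro g h ⟨hg, hgx, hgr⟩ ⟨hh, hhx, hhr⟩
    refine ⟨?_, fun x => ?_, fun r => ?_⟩
    · rw [w_mul_p]
      show (wp g).toAdd.1 + (wp h).toAdd.1 = 0
      rw [hg, hh, add_zero]
    · rw [w_mul_c, smul_inl]; exact mul_mem (hgx _) (hhx _)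
    · rw [w_mul_c, smul_inr]; exact mul_mem (hgr _) (hhr _)
  inv_mem' := by
    rintro g ⟨hg, hgx, hgr⟩
    refine ⟨?_, fun x => ?_, fun r => ?_⟩
    · rw [w_inv_p]
      show -(wp g).toAdd.1 = 0
      rw [hg, neg_zero]
    · rw [w_inv_c, smul_inl]; exact inv_mem (hgx _)
    · rw [w_inv_c, smul_inr]; exact inv_mem (hgr _)

lemma mem_Full {g : V (n + 1)} : g ∈ Full n ↔ (wp g).toAdd.1 = 0 ∧
    (∀ x, wc g (Sum.inl x) ∈ Nc n) ∧ ∀ r, wc g (Sum.inr r) ∈ G n := Iff.rfl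

lemma Nc_le_Full (n : ℕ) : Nc (n + 1) ≤ Full n := by
  intro g hg
  obtain ⟨hA, hG⟩ := mem_Nc_iff.1 hg
  rw [mem_A_succ] at hA
  exact ⟨hA.1, fun x => mem_Nc_iff.2 ⟨hA.2 x, sec_mem_G hG _⟩, fun r => sec_mem_G hG _⟩

theorem card_Full (n : ℕ) :
    Nat.card (Full n) = 64 * (Nat.card (Nc n) ^ 2 * Nat.card (G n) ^ 64) := by
  have e : Full n ≃ ZMod 64 × ((ZMod 2 → Nc n) × (ZMod 64 → G n)) :=
    { toFun := fun g => ((wp g.1).toAdd.2, (fun x => ⟨_, (mem_Full.1 g.2).2.1 x⟩,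
        fun r => ⟨_, (mem_Full.1 g.2).2.2 r⟩))
      invFun := fun y => ⟨(⟨fun z => match z with
          | Sum.inl x => (y.2.1 x : V n)
          | Sum.inr r => (y.2.2 r : V n), Multiplicative.ofAdd (0, y.1)⟩ : Node P Z (V n)),
          ⟨rfl, fun x => (y.2.1 x).2, fun r => (y.2.2 r).2⟩⟩
      left_inv := by
        rintro ⟨g, hg⟩
        apply Subtype.ext
        apply w_ext
        · intro z; rcases z with x | r <;> rfl
        · show Multiplicative.ofAdd ((0 : ZMod 2), (wp g).toAdd.2) = wp g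
          have : (wp g).toAdd = (0, (wp g).toAdd.2) := Prod.ext hg.1 rfl
          rw [← this]; rfl
      right_inv := by rintro ⟨t, u, v⟩; rfl }
  rw [Nat.card_congr e, Nat.card_prod, Nat.card_prod, Nat.card_fun, Nat.card_fun]
  simp

/-- the product of the commutator subgroups -/
lemma prod_mem {g : V (n + 1)} (hp : wp g = 1) (hK : ∀ x, wc g (Sum.inl x) ∈ K n)
    (hJ : ∀ r, wc g (Sum.inr r) ∈ J n) : g ∈ Nc (n + 1) := by
  rw [mem_Nc_iff]
  have hKN : K n ≤ Nc n := by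
    unfold K
    rw [Subgroup.commutator_le]
    intro g₁ h₁ g₂ h₂
    rw [commutatorElement_def]
    exact mul_mem (Nc_conj h₁ h₂) (inv_mem h₂)
  constructor
  · rw [mem_A_succ]
    refine ⟨by rw [hp]; rfl, fun x => Nc_le_A n (hKN (hK x))⟩
  · have hg : g = wcoord (wc g) := by
      apply w_ext
      · intro z; rfl
      · exact hp
    rw [hg]
    have : wc g ∈ (G (n + 1)).comap wcoord := by
      apply Subgroup.pi_mem_of_mulSingle_mem
      intro z
      show wcoord (Pi.mulSingle z (wc g z)) ∈ G (n + 1)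
      rcases z with x | r
      · exact wio_K x (hK x)
      · exact wio_J r (hJ r)
    exact this

theorem card_prod_le (n : ℕ) :
    Nat.card (K n) ^ 2 * Nat.card (J n) ^ 64 ≤ Nat.card (Nc (n + 1)) := by
  have e : Nat.card ((ZMod 2 → K n) × (ZMod 64 → J n)) =
      Nat.card (K n) ^ 2 * Nat.card (J n) ^ 64 := by
    rw [Nat.card_prod, Nat.card_fun, Nat.card_fun]; simp
  rw [← e]
  apply Nat.card_le_card_of_injective (fun y : (ZMod 2 → K n) × (ZMod 64 → J n) =>
    (⟨(⟨fun z => match z with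
          | Sum.inl x => (y.1 x : V n)
          | Sum.inr r => (y.2 r : V n), 1⟩ : Node P Z (V n)),
      prod_mem rfl (fun x => (y.1 x).2) (fun r => (y.2 r).2)⟩ : Nc (n + 1)))
  rintro ⟨u, v⟩ ⟨u', v'⟩ h
  have hc := congrArg (fun g : Nc (n + 1) => wc g.1) h
  refine Prod.ext ?_ ?_
  · funext x; exact Subtype.ext (congrFun hc (Sum.inl x))
  · funext r; exact Subtype.ext (congrFun hc (Sum.inr r))

end Pool.Agent.H82R2.Dim
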