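import Pool.Agent.H82R2.Dim.Gen
import Pool.Agent.H82R2.Dim.Bridge

set_option linter.all false

namespace Pool.Agent.H82R2.Dim

open Q

/-- TASK H -/
def H (n : ℕ) : Subgroup (W P Z n) := Subgroup.closure {el n s, el n a, el n b}

theorem card_H (n : ℕ) (hn : 3 ≤ n) : Nat.card (H n) = 2 ^ (n + 1 + Nat.clog 2 n) := by
  sorry

/-- TASK IRR -/
theorem irr (ν : ℕ → ℕ) (C : ℤ) (n₀ : ℕ)
    (h : ∀ n, n₀ ≤ n → (ν (n + 1) : ℤ) = 66 * ν n + 64 * (n + 1 + Nat.clog 2 n) + C) :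
    ∃ S : ℝ, Irrational S ∧ Filter.Tendsto
      (fun n : ℕ => ((ν n + (n + 1 + Nat.clog 2 n) : ℕ) : ℝ) / 66 ^ n) Filter.atTop (nhds S) := by
  sorry

/-- The Hausdorff dimension of the closure of the group generated by the automaton `M`
(literal normalisation by `|Aut T / st(n)| = (m!)^(1+m+...+m^(n-1))`). -/
noncomputable def Mealy.dim {Q A : Type} [Fintype A] (M : Mealy Q A) : ℝ :=
  Filter.liminf (fun n : ℕ => Real.log (M.levelCard n) /
    Real.log ((Nat.factorial (Fintype.card A) : ℝ) ^ (∑ i ∈ Finset.range n, (Fintype.card A) ^ i)))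
    Filter.atTop

/-- TASK A5 -/
theorem exists_literal :
    ∃ (Q : Type) (_ : Fintype Q) (M : Mealy Q (Fin 5)), Irrational M.dim := by
  sorry

end Pool.Agent.H82R2.Dim
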