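import Pool.Agent.H82R2.Dim.Bridge

/-! Changing the names of the letters. -/

set_option linter.all false

namespace Pool.Agent.H82R2.Dim

variable {Q A B : Type}

/-- rename the letters -/
def Mealy.transport (M : Mealy Q A) (e : A ≃ B) : Mealy Q B where
  out q := e.permCongr (M.out q)
  nxt q b := M.nxt q (e.symm b)

lemma transport_act (M : Mealy Q A) (e : A ≃ B) (q : Q) (w : List A) :
    (M.transport e).act q (w.map e) = (M.act q w).map e := by
  induction w generalizing q with
  | nil => rfl
  | cons x w ih =>
    show e (M.out q (e.symm (e x))) :: (M.transport e).act (M.nxt q (e.symm (e x))) (w.map e)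
      = e (M.out q x) :: (M.act (M.nxt q x) w).map e
    rw [e.symm_apply_apply, ih]

theorem levelCard_transport (M : Mealy Q A) (e : A ≃ B) (n : ℕ) :
    (M.transport e).levelCard n = M.levelCard n := by
  let E : List A ≃ List B := Equiv.listEquivOfEquiv e
  have hE : ∀ w, E w = w.map e := fun w => rfl
  let φ : Equiv.Perm (List A) ≃* Equiv.Perm (List B) := E.permCongrHom
  have hφ : ∀ (g : Equiv.Perm (List A)) (w : List A), φ g (E w) = E (g w) := by
    intro g w
    show E (g (E.symm (E w))) = E (g w)
    rw [E.symm_apply_apply]
  have h1 : (M.transport e).group = M.group.map φ.toMonoidHom := by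
    unfold Mealy.group
    rw [MonoidHom.map_closure, ← Set.range_comp]
    congr 2
    funext q
    apply Equiv.ext
    intro w
    obtain ⟨w, rfl⟩ := E.surjective w
    show (M.transport e).act q (E w) = φ (M.perm q) (E w)
    rw [hφ, hE, hE, transport_act]
    rfl
  have h2 : levelStab B n = (levelStab A n).map φ.toMonoidHom := by
    ext g
    constructor
    · intro hg
      refine ⟨φ.symm g, ?_, φ.apply_symm_apply g⟩
      intro w hw
      apply E.injective
      have := hφ (φ.symm g) w
      rw [φ.apply_symm_apply] at this
      rw [← this]
      apply hg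
      rw [hE, List.length_map, hw]
    · rintro ⟨g, hg, rfl⟩ w hw
      obtain ⟨w, rfl⟩ := E.surjective w
      show φ g (E w) = E w
      rw [hφ]
      rw [hg w (by rwa [hE, List.length_map] at hw)]
  unfold Mealy.levelCard
  rw [h1, h2]
  exact Subgroup.relIndex_map_map_of_injective _ _ φ.injective

end Pool.Agent.H82R2.Dim
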