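import Pool.Agent.H82R2.Dim.Gen

/-! `W`-versions of the `Node` lemmas, specialised to our `P`, `Z`. -/

set_option linter.all false

namespace Pool.Agent.H82R2.Dim

open Q
open scoped commutatorElement

abbrev V (n : ℕ) : Type := W P Z n

variable {n : ℕ}

/-- sections -/
def wc (g : V (n + 1)) (z : Z) : V n := Node.c g z
/-- root label -/
def wp (g : V (n + 1)) : P := Node.p g

lemma elc (q : Q) (z : Z) : wc (el (n + 1) q) z = el n (nxt q z) := rfl
lemma elp (q : Q) : wp (el (n + 1) q) = lab q := rfl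

lemma w_mul_c (g h : V (n + 1)) (z : Z) :
    wc (g * h) z = wc g (wp h • z) * wc h z := rfl
lemma w_mul_p (g h : V (n + 1)) : wp (g * h) = wp g * wp h := rfl
lemma w_one_c (z : Z) : wc (1 : V (n + 1)) z = 1 := rfl
lemma w_one_p : wp (1 : V (n + 1)) = 1 := rfl
lemma w_inv_c (g : V (n + 1)) (z : Z) :
    wc (g⁻¹) z = (wc g ((wp g)⁻¹ • z))⁻¹ := rfl
lemma w_inv_p (g : V (n + 1)) : wp (g⁻¹) = (wp g)⁻¹ := rfl

lemma w_ext {g h : V (n + 1)} (hc : ∀ z, wc g z = wc h z) (hp : wp g = wp h) :
    g = h := Node.ext (funext hc) hp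

/-- coordinates -/
def wcoord : (Z → V n) →* V (n + 1) := (coord : (Z → V n) →* Node P Z (V n))
def wrt : P →* V (n + 1) := (rt : P →* Node P Z (V n))
def wio (z : Z) : V n →* V (n + 1) := (io z : V n →* Node P Z (V n))

lemma wcoord_c (c : Z → V n) (z : Z) : wc (wcoord c) z = c z := rfl
lemma wcoord_p (c : Z → V n) : wp (wcoord c) = 1 := rfl
lemma wrt_c (p : P) (z : Z) : wc (wrt (n := n) p) z = 1 := rfl
lemma wrt_p (p : P) : wp (wrt (n := n) p) = p := rfl
lemma wio_c_self (z : Z) (g : V n) : wc (wio z g) z = g := io_c_self z g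
lemma wio_c_ne {z w : Z} (h : w ≠ z) (g : V n) : wc (wio z g) w = 1 := io_c_ne h g
lemma wio_p (z : Z) (g : V n) : wp (wio z g) = 1 := rfl

lemma wrt_conj_wio (p : P) (z : Z) (g : V n) :
    wrt p * wio z g * (wrt p)⁻¹ = wio (p • z) g := rt_conj_io p z g

lemma conj_wio (e : V (n + 1)) (he : wp e = 1) (z : Z) (g : V n) :
    e * wio z g * e⁻¹ = wio z (wc e z * g * (wc e z)⁻¹) := conj_io e he z g

lemma wcommutator_eq (e f : V (n + 1)) (he : wp e = 1) (hf : wp f = 1) (z : Z)
    (h : ∀ w, w ≠ z → Commute (wc e w) (wc f w)) :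
    ⁅e, f⁆ = wio z ⁅wc e z, wc f z⁆ := commutator_eq_io e f he hf z h

/-- conjugate of an element with trivial label by a rooted element -/
lemma conj_wrt_c (p : P) (g : V (n + 1)) (z : Z) :
    wc ((wrt p)⁻¹ * g * wrt p) z = wc g (p • z) := by
  rw [w_mul_c, w_mul_c, wrt_c, wrt_p, w_inv_c, wrt_c]
  simp

lemma conj_wrt_p (p : P) (g : V (n + 1)) :
    wp ((wrt p)⁻¹ * g * wrt p) = wp g := by
  rw [w_mul_p, w_mul_p, wrt_p, w_inv_p, wrt_p]
  rw [mul_comm (p⁻¹) _]; simp

lemma commute_wrt (p : P) (g : V (n + 1)) (h : ∀ z, wc g (p • z) = wc g z) :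
    Commute (wrt p) g := by
  apply w_ext
  · intro z
    rw [w_mul_c, w_mul_c, wrt_c, wrt_c, wrt_p, h z]; simp
  · rw [w_mul_p, w_mul_p, wrt_p, mul_comm]

lemma el_s_eq : el (n + 1) s = wrt (lab s) := el_s n
lemma el_l_eq : el (n + 1) l = wrt (lab l) := el_l n

/-- translation by `r` on the letters `inr` -/
def pR (r : ZMod 64) : P := Multiplicative.ofAdd (0, r)
def pX : P := Multiplicative.ofAdd (1, 0)

lemma pR_inl (r : ZMod 64) (x : ZMod 2) : pR r • (Sum.inl x : Z) = Sum.inl x := by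
  simp [pR]
lemma pR_inr (r t : ZMod 64) : pR r • (Sum.inr t : Z) = Sum.inr (r + t) := by
  simp [pR]
lemma pX_inl (x : ZMod 2) : pX • (Sum.inl x : Z) = Sum.inl (1 + x) := by
  simp [pX]
lemma pX_inr (t : ZMod 64) : pX • (Sum.inr t : Z) = Sum.inr t := by
  simp [pX]

lemma lab_l_pow (k : ℕ) : lab l ^ k = pR k := by
  show Multiplicative.ofAdd ((0 : ZMod 2), (1 : ZMod 64)) ^ k = _
  rw [← ofAdd_nsmul]
  simp [pR]

lemma wrt_pR_mem (r : ZMod 64) : wrt (n := n) (pR r) ∈ G (n + 1) := by
  have : pR r = lab l ^ r.val := by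
    rw [lab_l_pow]; congr 1; simp
  rw [this, map_pow, ← el_l_eq]
  exact pow_mem (el_mem _ _) _

lemma wrt_pX_mem : wrt (n := n) pX ∈ G (n + 1) := by
  have : wrt (n := n) pX = el (n + 1) s := el_s_eq.symm
  rw [this]; exact el_mem _ _

/-! ### commutation facts -/

lemma el_s_comm_a' (n : ℕ) : Commute (el n s) (el n a) := by
  cases n with
  | zero => exact Subsingleton.elim _ _
  | succ n =>
    rw [el_s_eq]
    apply commute_wrt
    intro z
    rcases z with x | r
    · rfl
    · rfl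

lemma el_l_comm (n : ℕ) (q : Q) (h : ∀ r : ZMod 64, nxt q (Sum.inr r) = e) :
    Commute (el n l) (el n q) := by
  cases n with
  | zero => exact Subsingleton.elim _ _
  | succ n =>
    rw [el_l_eq]
    apply commute_wrt
    intro z
    rcases z with x | r
    · show el n (nxt q ((lab l) • Sum.inl x)) = el n (nxt q (Sum.inl x))
      have : (lab l) • (Sum.inl x : Z) = Sum.inl x := by simp [lab]
      rw [this]
    · show el n (nxt q (Sum.inr _)) = el n (nxt q (Sum.inr r))
      rw [h, h]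

lemma comm_l_s (n : ℕ) : Commute (el n l) (el n s) := el_l_comm n s (fun _ => rfl)
lemma comm_l_a (n : ℕ) : Commute (el n l) (el n a) := el_l_comm n a (fun _ => rfl)
lemma comm_l_b (n : ℕ) : Commute (el n l) (el n b) := el_l_comm n b (fun _ => rfl)
lemma comm_l_c (n : ℕ) : Commute (el n l) (el n c) := el_l_comm n c (fun _ => rfl)
lemma comm_l_f (n : ℕ) : Commute (el n l) (el n f) := el_l_comm n f (fun _ => rfl)

lemma pow64 (n : ℕ) (q : Q) : (el n q) ^ 64 = 1 := by
  induction n generalizing q with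
  | zero => exact Subsingleton.elim _ _
  | succ n ih =>
    -- elements with trivial label
    have triv : ∀ q, lab q = 1 → ∀ k, (∀ z, wc ((el (n + 1) q) ^ k) z = (el n (nxt q z)) ^ k) ∧
        wp ((el (n + 1) q) ^ k) = 1 := by
      intro q hq k
      induction k with
      | zero => exact ⟨fun z => by rw [pow_zero, w_one_c, pow_zero], by rw [pow_zero, w_one_p]⟩
      | succ k ihk =>
        refine ⟨fun z => ?_, ?_⟩
        · rw [pow_succ, w_mul_c, elp, hq, one_smul, ihk.1, elc, ← pow_succ]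
        · rw [pow_succ, w_mul_p, ihk.2, elp, hq, one_mul]
    have fin : ∀ q, lab q = 1 → (el (n + 1) q) ^ 64 = 1 := by
      intro q hq
      apply w_ext
      · intro z; rw [(triv q hq 64).1, ih]; rfl
      · rw [(triv q hq 64).2]; rfl
    cases q with
    | e => exact fin e rfl
    | a => exact fin a rfl
    | b => exact fin b rfl
    | f => exact fin f rfl
    | d1 => exact fin d1 rfl
    | d2 => exact fin d2 rfl
    | s => rw [el_s_eq, ← map_pow]; 
           have : (lab s) ^ 64 = 1 := by decide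
           rw [this, map_one]
    | l => rw [el_l_eq, ← map_pow]; 
           have : (lab l) ^ 64 = 1 := by
             rw [lab_l_pow]; decide
           rw [this, map_one]
    | c =>
      rw [el_c_eq, (el_s_comm_a' (n + 1)).mul_pow, fin a rfl, mul_one, el_s_eq, ← map_pow]
      have : (lab s) ^ 64 = 1 := by decide
      rw [this, map_one]

end Pool.Agent.H82R2.Dim
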